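import Pool.Agent.Helper59.AP.Defs

namespace Pool.Agent.Helper59.AP

section
variable {R : Type*} [CommRing R]

theorem fw_a {P : Pt R} (h : Good P) : fw P * P.a + 1 = (P.r * P.s + P.a * P.t) ^ 2 := by
  obtain ⟨h1, h2, h3⟩ := h
  unfold fw
  linear_combination (-P.s ^ 2) * h1 - (P.a * P.b + 1) * h2 - P.a ^ 2 * h3

theorem fw_b {P : Pt R} (h : Good P) : fw P * P.b + 1 = (P.r * P.t + P.b * P.s) ^ 2 := by
  obtain ⟨h1, h2, h3⟩ := h
  unfold fw
  linear_combination (-P.t ^ 2) * h1 - (P.a * P.b + 1) * h3 - P.b ^ 2 * h2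

theorem fw_c {P : Pt R} (h : Good P) : fw P * P.c + 1 = (P.s * P.t + P.c * P.r) ^ 2 := by
  obtain ⟨h1, h2, h3⟩ := h
  unfold fw
  linear_combination (-P.t ^ 2) * h2 - (P.a * P.c + 1) * h3 - P.c ^ 2 * h1

theorem bw_a {P : Pt R} (h : Good P) : bw P * P.a + 1 = (P.r * P.s - P.a * P.t) ^ 2 := by
  obtain ⟨h1, h2, h3⟩ := h
  unfold bw
  linear_combination (-P.s ^ 2) * h1 - (P.a * P.b + 1) * h2 - P.a ^ 2 * h3

theorem bw_b {P : Pt R} (h : Good P) : bw P * P.b + 1 = (P.r * P.t - P.b * P.s) ^ 2 := by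
  obtain ⟨h1, h2, h3⟩ := h
  unfold bw
  linear_combination (-P.t ^ 2) * h1 - (P.a * P.b + 1) * h3 - P.b ^ 2 * h2

theorem bw_c {P : Pt R} (h : Good P) : bw P * P.c + 1 = (P.s * P.t - P.c * P.r) ^ 2 := by
  obtain ⟨h1, h2, h3⟩ := h
  unfold bw
  linear_combination (-P.t ^ 2) * h2 - (P.a * P.c + 1) * h3 - P.c ^ 2 * h1

theorem good_step {P : Pt R} (h : Good P) (e : Fin 3) : Good (step e P) := by
  have ha := fw_a h
  have hb := fw_b h
  have hc := fw_c h
  obtain ⟨h1, h2, h3⟩ := h
  fin_cases e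
  · refine ⟨?_, ?_, ?_⟩
    · show (P.r * P.t + P.b * P.s) ^ 2 = fw P * P.b + 1
      exact hb.symm
    · show (P.s * P.t + P.c * P.r) ^ 2 = fw P * P.c + 1
      exact hc.symm
    · exact h3
  · refine ⟨?_, ?_, ?_⟩
    · show (P.r * P.s + P.a * P.t) ^ 2 = P.a * fw P + 1
      rw [← ha]; ring
    · exact h2
    · show (P.s * P.t + P.c * P.r) ^ 2 = fw P * P.c + 1
      exact hc.symm
  · refine ⟨?_, ?_, ?_⟩
    · exact h1
    · show (P.r * P.s + P.a * P.t) ^ 2 = P.a * fw P + 1
      rw [← ha]; ring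
    · show (P.r * P.t + P.b * P.s) ^ 2 = P.b * fw P + 1
      rw [← hb]; ring

theorem good_back {P : Pt R} (h : Good P) (e : Fin 3) : Good (back e P) := by
  have ha := bw_a h
  have hb := bw_b h
  have hc := bw_c h
  obtain ⟨h1, h2, h3⟩ := h
  fin_cases e
  · refine ⟨?_, ?_, ?_⟩
    · show (P.r * P.t - P.b * P.s) ^ 2 = bw P * P.b + 1
      exact hb.symm
    · show (P.s * P.t - P.c * P.r) ^ 2 = bw P * P.c + 1
      exact hc.symm
    · exact h3
  · refine ⟨?_, ?_, ?_⟩
    · show (P.r * P.s - P.a * P.t) ^ 2 = P.a * bw P + 1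
      rw [← ha]; ring
    · exact h2
    · show (P.s * P.t - P.c * P.r) ^ 2 = bw P * P.c + 1
      exact hc.symm
  · refine ⟨?_, ?_, ?_⟩
    · exact h1
    · show (P.r * P.s - P.a * P.t) ^ 2 = P.a * bw P + 1
      rw [← ha]; ring
    · show (P.r * P.t - P.b * P.s) ^ 2 = P.b * bw P + 1
      rw [← hb]; ring

theorem step_back {P : Pt R} (h : Good P) (e : Fin 3) : step e (back e P) = P := by
  obtain ⟨h1, h2, h3⟩ := h
  obtain ⟨a, b, c, r, s, t⟩ := P
  simp only at h1 h2 h3
  fin_cases e
  · refine Pt.ext ?_ rfl rfl ?_ ?_ rfl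
    · show (a + b + c + 2 * a * b * c - 2 * r * s * t) + b + c +
        2 * (a + b + c + 2 * a * b * c - 2 * r * s * t) * b * c +
        2 * (r * t - b * s) * (s * t - c * r) * t = a
      linear_combination (-2 * c * t ^ 2) * h1 + (-2 * b * t ^ 2) * h2 +
        (2 * r * s * t - 4 * a * b * c  - 2 * b - 2 * c) * h3
    · show (r * t - b * s) * t + b * (s * t - c * r) = r
      linear_combination r * h3
    · show (s * t - c * r) * t + c * (r * t - b * s) = s
      linear_combination s * h3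
  · refine Pt.ext rfl ?_ rfl ?_ rfl ?_
    · show a + (a + b + c + 2 * a * b * c - 2 * r * s * t) + c +
        2 * a * (a + b + c + 2 * a * b * c - 2 * r * s * t) * c +
        2 * (r * s - a * t) * s * (s * t - c * r) = b
      linear_combination (-2 * c * s ^ 2) * h1 + (-2 * a * s ^ 2) * h3 +
        (2 * r * s * t - 4 * a * b * c  - 2 * a - 2 * c) * h2
    · show (r * s - a * t) * s + a * (s * t - c * r) = r
      linear_combination r * h2
    · show s * (s * t - c * r) + c * (r * s - a * t) = t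
      linear_combination t * h2
  · refine Pt.ext rfl rfl ?_ rfl ?_ ?_
    · show a + b + (a + b + c + 2 * a * b * c - 2 * r * s * t) +
        2 * a * b * (a + b + c + 2 * a * b * c - 2 * r * s * t) +
        2 * r * (r * s - a * t) * (r * t - b * s) = c
      linear_combination (-2 * b * r ^ 2) * h2 + (-2 * a * r ^ 2) * h3 +
        (2 * r * s * t - 4 * a * b * c  - 2 * a - 2 * b) * h1
    · show r * (r * s - a * t) + a * (r * t - b * s) = s
      linear_combination s * h1
    · show r * (r * t - b * s) + b * (r * s - a * t) = t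
      linear_combination t * h1

/-- Change the signs of the labels. -/
def sw (P : Pt R) : Pt R := ⟨-P.a, -P.b, -P.c, P.r, P.s, P.t⟩

theorem good_sw {P : Pt R} (h : Good P) : Good (sw P) := by
  obtain ⟨h1, h2, h3⟩ := h
  refine ⟨?_, ?_, ?_⟩
  · show P.r ^ 2 = -P.a * -P.b + 1
    rw [h1]; ring
  · show P.s ^ 2 = -P.a * -P.c + 1
    rw [h2]; ring
  · show P.t ^ 2 = -P.b * -P.c + 1
    rw [h3]; ring

theorem sw_sw (P : Pt R) : sw (sw P) = P := by
  obtain ⟨a, b, c, r, s, t⟩ := P
  simp [sw]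

theorem step_sw (P : Pt R) (e : Fin 3) : step e (sw P) = sw (back e P) := by
  obtain ⟨a, b, c, r, s, t⟩ := P
  fin_cases e
  · refine Pt.ext ?_ rfl rfl ?_ ?_ rfl
    · show fw (sw _) = - bw _
      simp only [fw, bw, sw]; ring
    · show r * t + -b * s = r * t - b * s
      ring
    · show s * t + -c * r = s * t - c * r
      ring
  · refine Pt.ext rfl ?_ rfl ?_ rfl ?_
    · show fw (sw _) = - bw _
      simp only [fw, bw, sw]; ring
    · show r * s + -a * t = r * s - a * t
      ring
    · show s * t + -c * r = s * t - c * r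
      ring
  · refine Pt.ext rfl rfl ?_ rfl ?_ ?_
    · show fw (sw _) = - bw _
      simp only [fw, bw, sw]; ring
    · show r * s + -a * t = r * s - a * t
      ring
    · show r * t + -b * s = r * t - b * s
      ring

theorem back_sw (P : Pt R) (e : Fin 3) : back e (sw P) = sw (step e P) := by
  rw [← sw_sw (back e (sw P)), ← step_sw, sw_sw]

theorem back_step {P : Pt R} (h : Good P) (e : Fin 3) : back e (step e P) = P := by
  have h1 := step_back (good_sw h) e
  rw [back_sw, step_sw] at h1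
  rw [← sw_sw (back e (step e P)), h1, sw_sw]

theorem good_TT {P : Pt R} (h : Good P) (α : List (Fin 3)) : Good (TT P α) := by
  induction α with
  | nil => exact h
  | cons e α ih => exact good_step ih e

theorem good_BB {P : Pt R} (h : Good P) (α : List (Fin 3)) : Good (BB α P) := by
  induction α generalizing P with
  | nil => exact h
  | cons e α ih => exact ih (good_back h e)

theorem TT_BB {P : Pt R} (h : Good P) (α : List (Fin 3)) : TT (BB α P) α = P := by
  induction α generalizing P with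
  | nil => rfl
  | cons e α ih =>
    show step e (TT (BB α (back e P)) α) = P
    rw [ih (good_back h e), step_back h e]

theorem TT_append (P : Pt R) (δ α : List (Fin 3)) : TT P (δ ++ α) = TT (TT P α) δ := by
  induction δ with
  | nil => rfl
  | cons e δ ih =>
    show step e (TT P (δ ++ α)) = step e (TT (TT P α) δ)
    rw [ih]

theorem cor_step (P : Pt R) (e i : Fin 3) :
    cor (step e P) i = if i = e then fw P else cor P i := by
  fin_cases e <;> fin_cases i <;> rfl

theorem cor_back (P : Pt R) (e i : Fin 3) :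
    cor (back e P) i = if i = e then bw P else cor P i := by
  fin_cases e <;> fin_cases i <;> rfl

theorem cor_TT (P : Pt R) (α : List (Fin 3)) (i : Fin 3) : cor (TT P α) i = lab P (corner α i) := by
  induction α with
  | nil => rfl
  | cons e α ih =>
    show cor (step e (TT P α)) i = lab P (if i = e then Sum.inr α else corner α i)
    rw [cor_step]
    split_ifs with h
    · rfl
    · exact ih

theorem sq_fw {P : Pt R} (h : Good P) (i : Fin 3) : IsSquare (fw P * cor P i + 1) := by
  fin_cases i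
  · exact ⟨_, (fw_a h).trans (sq _)⟩
  · exact ⟨_, (fw_b h).trans (sq _)⟩
  · exact ⟨_, (fw_c h).trans (sq _)⟩

theorem sq_cor {P : Pt R} (h : Good P) {i j : Fin 3} (hij : i ≠ j) :
    IsSquare (cor P i * cor P j + 1) := by
  obtain ⟨h1, h2, h3⟩ := h
  fin_cases i <;> fin_cases j
  · exact absurd rfl hij
  · exact ⟨P.r, by rw [← sq, h1]; rfl⟩
  · exact ⟨P.s, by rw [← sq, h2]; rfl⟩
  · exact ⟨P.r, by rw [← sq, h1]; show P.b * P.a + 1 = P.a * P.b + 1; ring⟩
  · exact absurd rfl hij
  · exact ⟨P.t, by rw [← sq, h3]; rfl⟩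
  · exact ⟨P.s, by rw [← sq, h2]; show P.c * P.a + 1 = P.a * P.c + 1; ring⟩
  · exact ⟨P.t, by rw [← sq, h3]; show P.c * P.b + 1 = P.b * P.c + 1; ring⟩
  · exact absurd rfl hij

theorem sq_AA {P : Pt R} (h : Good P) {u v : VV} (huv : AA u v) :
    IsSquare (lab P u * lab P v + 1) := by
  rcases huv with ⟨i, j, hij, rfl, rfl⟩ | ⟨α, i, rfl, rfl⟩ | ⟨α, i, rfl, rfl⟩
  · exact sq_cor h hij
  · have := sq_fw (good_TT h α) i
    rw [cor_TT] at this
    exact this
  · have := sq_fw (good_TT h α) i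
    rw [cor_TT, mul_comm] at this
    exact this
end

theorem red_step (l : ℕ) (X : Pt ℤ) (e : Fin 3) : red l (step e X) = step e (red l X) := by
  obtain ⟨a, b, c, r, s, t⟩ := X
  fin_cases e <;> (refine Pt.ext ?_ ?_ ?_ ?_ ?_ ?_ <;> simp [red, step, fw])

theorem red_back (l : ℕ) (X : Pt ℤ) (e : Fin 3) : red l (back e X) = back e (red l X) := by
  obtain ⟨a, b, c, r, s, t⟩ := X
  fin_cases e <;> (refine Pt.ext ?_ ?_ ?_ ?_ ?_ ?_ <;> simp [red, back, bw])

theorem red_iter (l : ℕ) (X : Pt ℤ) (e : Fin 3) (n : ℕ) :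
    red l ((step e)^[n] X) = (step e)^[n] (red l X) := by
  induction n generalizing X with
  | zero => rfl
  | succ n ih => rw [Function.iterate_succ_apply, Function.iterate_succ_apply, ih, red_step]

theorem red_Bn (l : ℕ) (X : Pt ℤ) (n : ℕ) (α : List (Fin 3)) :
    red l (Bn n α X) = Bn n α (red l X) := by
  induction α generalizing X with
  | nil => rfl
  | cons e α ih =>
    show red l (Bn n α ((step e)^[n] X)) = Bn n α ((step e)^[n] (red l X))
    rw [ih, red_iter]

theorem red_TT (l : ℕ) (X : Pt ℤ) (α : List (Fin 3)) : red l (TT X α) = TT (red l X) α := by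
  induction α with
  | nil => rfl
  | cons e α ih =>
    show red l (step e (TT X α)) = step e (TT (red l X) α)
    rw [red_step, ih]

theorem red_fw (l : ℕ) (X : Pt ℤ) : ((fw X : ℤ) : ZMod l) = fw (red l X) := by
  simp [red, fw]

theorem red_lab (l : ℕ) (X : Pt ℤ) (v : VV) : ((lab X v : ℤ) : ZMod l) = lab (red l X) v := by
  rcases v with i | α
  · fin_cases i <;> rfl
  · show ((fw (TT X α) : ℤ) : ZMod l) = fw (TT (red l X) α)
    rw [red_fw, red_TT]

theorem good_red {l : ℕ} {X : Pt ℤ} (h : Good X) : Good (red l X) := by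
  obtain ⟨h1, h2, h3⟩ := h
  refine ⟨?_, ?_, ?_⟩
  · show (X.r : ZMod l) ^ 2 = X.a * X.b + 1
    exact_mod_cast congrArg (Int.cast : ℤ → ZMod l) h1
  · show (X.s : ZMod l) ^ 2 = X.a * X.c + 1
    exact_mod_cast congrArg (Int.cast : ℤ → ZMod l) h2
  · show (X.t : ZMod l) ^ 2 = X.b * X.c + 1
    exact_mod_cast congrArg (Int.cast : ℤ → ZMod l) h3

end Pool.Agent.Helper59.AP
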