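import Pool.Agent.Helper59.AP.Alg

namespace Pool.Agent.Helper59.AP

section
variable {R : Type*} [CommRing R]

/-- Closed form of the iterates of `step 2`. -/
def itc (P : Pt R) (S T : R) : Pt R :=
  ⟨P.a, P.b, P.c * (S ^ 2 + P.a * P.b * T ^ 2) + (P.a + P.b) * T ^ 2 + 2 * P.s * P.t * S * T, P.r,
    S * P.s + P.a * T * P.t, S * P.t + P.b * T * P.s⟩

theorem step_itc {P : Pt R} (h : Good P) {S T : R} (hST : S ^ 2 - P.a * P.b * T ^ 2 = 1) :
    step 2 (itc P S T) = itc P (P.r * S + P.a * P.b * T) (P.r * T + S) := by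
  obtain ⟨g1, g2, g3⟩ := h
  ext
  · rfl
  · rfl
  · change fw (itc P S T) = P.c * ((P.r * S + P.a * P.b * T) ^ 2 + P.a * P.b * (P.r * T + S) ^ 2) +
      (P.a + P.b) * (P.r * T + S) ^ 2 +
      2 * P.s * P.t * (P.r * S + P.a * P.b * T) * (P.r * T + S)
    simp only [fw, itc]
    linear_combination (-(P.a + P.b)) * hST + 2 * P.r * S * T * P.b * g2 +
      2 * P.r * S * T * P.a * g3 - (P.c * (S ^ 2 + P.a * P.b * T ^ 2) + (P.a + P.b) * T ^ 2 +
      2 * P.s * P.t * S * T) * g1
  · rfl
  · change P.r * (S * P.s + P.a * T * P.t) + P.a * (S * P.t + P.b * T * P.s) =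
      (P.r * S + P.a * P.b * T) * P.s + P.a * (P.r * T + S) * P.t
    ring
  · change P.r * (S * P.t + P.b * T * P.s) + P.b * (S * P.s + P.a * T * P.t) =
      (P.r * S + P.a * P.b * T) * P.t + P.b * (P.r * T + S) * P.s
    ring

def ST (P : Pt R) : ℕ → R × R
  | 0 => (1, 0)
  | n + 1 => (P.r * (ST P n).1 + P.a * P.b * (ST P n).2, P.r * (ST P n).2 + (ST P n).1)

theorem ST_norm {P : Pt R} (h : Good P) (n : ℕ) :
    (ST P n).1 ^ 2 - P.a * P.b * (ST P n).2 ^ 2 = 1 := by
  induction n with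
  | zero => simp [ST]
  | succ n ih =>
    obtain ⟨g1, -, -⟩ := h
    simp only [ST]
    linear_combination ih + ((ST P n).1 ^ 2 - P.a * P.b * (ST P n).2 ^ 2) * g1

theorem iter_eq {P : Pt R} (h : Good P) (n : ℕ) :
    (step 2)^[n] P = itc P (ST P n).1 (ST P n).2 := by
  induction n with
  | zero =>
    simp only [Function.iterate_zero, id_eq, ST]
    ext <;> simp [itc]
  | succ n ih =>
    rw [Function.iterate_succ_apply', ih, step_itc h (ST_norm h n)]
    rfl

theorem ST_pow {P : Pt R} {d : R} (hd : d * d = P.a * P.b) (n : ℕ) :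
    (ST P n).1 + d * (ST P n).2 = (P.r + d) ^ n := by
  induction n with
  | zero => simp [ST]
  | succ n ih =>
    rw [pow_succ, ← ih]
    simp only [ST]
    linear_combination (-(ST P n).2) * hd

theorem itc_one (P : Pt R) : itc P 1 0 = P := by
  ext <;> simp [itc]

end

theorem per2 {l B : ℕ} (hl : GP B l) {Y : Pt ℤ} (hY : Good Y) (hr : 1 ≤ Y.r)
    (hB : 2 * (Y.r + 1) ≤ B) : (step 2)^[NN l] (red l Y) = red l Y := by
  obtain ⟨hp, h2, hBl, hsq⟩ := hl
  have : Fact l.Prime := ⟨hp⟩
  have hP : Good (red l Y) := good_red hY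
  have hPr : (red l Y).r = ((Y.r : ℤ) : ZMod l) := rfl
  have hPab : (red l Y).a * (red l Y).b = ((Y.a * Y.b : ℤ) : ZMod l) := by
    change ((Y.a : ℤ) : ZMod l) * ((Y.b : ℤ) : ZMod l) = _
    push_cast; rfl
  have h20 : (2 : ZMod l) ≠ 0 := by
    intro h
    have h' : ((2 : ℕ) : ZMod l) = 0 := by exact_mod_cast h
    rw [ZMod.natCast_eq_zero_iff] at h'
    exact absurd (Nat.le_of_dvd (by norm_num) h') (by omega)
  have hN0 : ((NN l : ℕ) : ZMod l) = 0 := by simp [NN]
  have h2N : 2 * NN l = (l - 1) * l := by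
    rcases hp.eq_two_or_odd with h | h
    · omega
    · have : 2 * ((l - 1) / 2) = l - 1 := by omega
      unfold NN
      calc 2 * (l * ((l - 1) / 2)) = (2 * ((l - 1) / 2)) * l := by ring
        _ = (l - 1) * l := by rw [this]
  have key : ST (red l Y) (NN l) = (1, 0) := by
    rcases eq_or_lt_of_le hr with h1 | h1
    · -- `r = 1`
      have hab0 : (red l Y).a * (red l Y).b = 0 := by
        rw [hPab]
        have : Y.a * Y.b = 0 := by have := hY.1; rw [← h1] at this; linarith
        rw [this]; simp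
      have hr1 : (red l Y).r = 1 := by rw [hPr, ← h1]; simp
      have hn : ∀ n : ℕ, ST (red l Y) n = (1, (n : ZMod l)) := by
        intro n
        induction n with
        | zero => simp [ST]
        | succ n ih => simp only [ST, ih, hab0, hr1]; ext <;> simp
      rw [hn, hN0]
    · -- `r ≥ 2`
      obtain ⟨y1, hy1⟩ := (hsq (2 * (Y.r + 1)).toNat (by omega) (by omega)).1
      obtain ⟨y2, hy2⟩ := (hsq (2 * (Y.r - 1)).toNat (by omega) (by omega)).1
      have hc1 : (((2 * (Y.r + 1)).toNat : ℕ) : ZMod l) = 2 * ((red l Y).r + 1) := by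
        rw [← Int.cast_natCast, Int.toNat_of_nonneg (by omega), hPr]; push_cast; rfl
      have hc2 : (((2 * (Y.r - 1)).toNat : ℕ) : ZMod l) = 2 * ((red l Y).r - 1) := by
        rw [← Int.cast_natCast, Int.toNat_of_nonneg (by omega), hPr]; push_cast; rfl
      have hn1 : (((2 * (Y.r + 1)).toNat : ℕ) : ZMod l) ≠ 0 := by
        intro h
        rw [ZMod.natCast_eq_zero_iff] at h
        exact absurd (Nat.le_of_dvd (by omega) h) (by omega)
      have hn2 : (((2 * (Y.r - 1)).toNat : ℕ) : ZMod l) ≠ 0 := by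
        intro h
        rw [ZMod.natCast_eq_zero_iff] at h
        exact absurd (Nat.le_of_dvd (by omega) h) (by omega)
      have hy10 : y1 ≠ 0 := by rintro rfl; apply hn1; rw [hy1]; simp
      have hy20 : y2 ≠ 0 := by rintro rfl; apply hn2; rw [hy2]; simp
      rw [hc1] at hy1
      rw [hc2] at hy2
      obtain ⟨x, hx⟩ : ∃ x, y1 = 2 * x := ⟨y1 / 2, by field_simp⟩
      obtain ⟨y, hy⟩ : ∃ y, y2 = 2 * y := ⟨y2 / 2, by field_simp⟩
      have hx0 : x ≠ 0 := by rintro rfl; simp at hx; exact hy10 hx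
      have hy0 : y ≠ 0 := by rintro rfl; simp at hy; exact hy20 hy
      rw [hx] at hy1
      rw [hy] at hy2
      have e1 : (red l Y).r + 1 = 2 * x * x := by
        apply mul_left_cancel₀ h20; rw [hy1]; ring
      have e2 : (red l Y).r - 1 = 2 * y * y := by
        apply mul_left_cancel₀ h20; rw [hy2]; ring
      have e3 : (red l Y).r = x ^ 2 + y ^ 2 := by
        apply mul_left_cancel₀ h20; linear_combination e1 + e2
      have e4 : (x + y) * (x - y) = 1 := by
        apply mul_left_cancel₀ h20; linear_combination e2 - e1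
      have hd : (2 * x * y) * (2 * x * y) = (red l Y).a * (red l Y).b := by
        have := hP.1
        rw [e3] at this
        linear_combination this - (x ^ 2 - y ^ 2 + 1) * e4
      have hd' : (-(2 * x * y)) * (-(2 * x * y)) = (red l Y).a * (red l Y).b := by
        rw [← hd]; ring
      have pw : ∀ z : ZMod l, z ≠ 0 → (z ^ 2) ^ NN l = 1 := by
        intro z hz
        rw [← pow_mul, h2N, pow_mul, ZMod.pow_card_sub_one_eq_one hz, one_pow]
      have p1 := ST_pow hd (NN l)
      have p2 := ST_pow hd' (NN l)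
      have q1 : (red l Y).r + 2 * x * y = (x + y) ^ 2 := by rw [e3]; ring
      have q2 : (red l Y).r + -(2 * x * y) = (x - y) ^ 2 := by rw [e3]; ring
      rw [q1, pw _ (left_ne_zero_of_mul_eq_one e4)] at p1
      rw [q2, pw _ (right_ne_zero_of_mul_eq_one e4)] at p2
      have s1 : (ST (red l Y) (NN l)).1 = 1 := by
        apply mul_left_cancel₀ h20; linear_combination p1 + p2
      have s2 : (ST (red l Y) (NN l)).2 = 0 := by
        have h4 : (2 * x * y) ≠ 0 := mul_ne_zero (mul_ne_zero h20 hx0) hy0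
        apply mul_left_cancel₀ h4
        rw [s1] at p1
        linear_combination p1
      exact Prod.ext s1 s2
  rw [iter_eq hP, key, itc_one]

section
variable {R : Type*} [CommRing R]

def sw1 (P : Pt R) : Pt R := ⟨P.a, P.c, P.b, P.s, P.r, P.t⟩

def sw0 (P : Pt R) : Pt R := ⟨P.c, P.b, P.a, P.t, P.s, P.r⟩

theorem step_one (P : Pt R) : step 1 P = sw1 (step 2 (sw1 P)) := by
  ext <;> simp [step, sw1, fw] <;> ring

theorem step_zero (P : Pt R) : step 0 P = sw0 (step 2 (sw0 P)) := by
  ext <;> simp [step, sw0, fw] <;> ring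

theorem iter_one (n : ℕ) (P : Pt R) : (step 1)^[n] P = sw1 ((step 2)^[n] (sw1 P)) := by
  induction n with
  | zero => rfl
  | succ n ih =>
    rw [Function.iterate_succ_apply', Function.iterate_succ_apply', ih, step_one]
    rfl

theorem iter_zero (n : ℕ) (P : Pt R) : (step 0)^[n] P = sw0 ((step 2)^[n] (sw0 P)) := by
  induction n with
  | zero => rfl
  | succ n ih =>
    rw [Function.iterate_succ_apply', Function.iterate_succ_apply', ih, step_zero]
    rfl

end

theorem period {X : Pt ℤ} (hg : Good X) (hn : Neg X) : ∃ B : ℕ, ∀ l, GP B l → ∀ e,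
    (step e)^[NN l] (red l X) = red l X := by
  obtain ⟨-, -, -, hr, hs, ht⟩ := hn
  obtain ⟨g1, g2, g3⟩ := hg
  refine ⟨(2 * (X.r + X.s + X.t + 1)).toNat, fun l hl e => ?_⟩
  have hB : (((2 * (X.r + X.s + X.t + 1)).toNat : ℕ) : ℤ) = 2 * (X.r + X.s + X.t + 1) :=
    Int.toNat_of_nonneg (by linarith)
  fin_cases e
  · change (step 0)^[NN l] (red l X) = red l X
    rw [iter_zero]
    have h := per2 (Y := sw0 X) hl ⟨by change X.t ^ 2 = X.c * X.b + 1; linarith [mul_comm X.c X.b],
      by change X.s ^ 2 = X.c * X.a + 1; linarith [mul_comm X.c X.a],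
      by change X.r ^ 2 = X.b * X.a + 1; linarith [mul_comm X.b X.a]⟩ ht
      (by rw [hB]; change 2 * (X.t + 1) ≤ _; linarith)
    change sw0 ((step 2)^[NN l] (red l (sw0 X))) = red l X
    rw [h]; rfl
  · change (step 1)^[NN l] (red l X) = red l X
    rw [iter_one]
    have h := per2 (Y := sw1 X) hl ⟨by change X.s ^ 2 = X.a * X.c + 1; exact g2,
      by change X.r ^ 2 = X.a * X.b + 1; exact g1,
      by change X.t ^ 2 = X.c * X.b + 1; linarith [mul_comm X.c X.b]⟩ hs
      (by rw [hB]; change 2 * (X.s + 1) ≤ _; linarith)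
    change sw1 ((step 2)^[NN l] (red l (sw1 X))) = red l X
    rw [h]; rfl
  · exact per2 hl ⟨g1, g2, g3⟩ hr (by rw [hB]; linarith)

end Pool.Agent.Helper59.AP
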