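import Pool.Agent.Helper59.AP.Neg
import Pool.Agent.Helper59.AP.Per

/-!
Module BLK: one positive integer point which is congruent to prescribed integer points modulo
finitely many primes.
-/

set_option autoImplicit false

namespace Pool.Agent.Helper59.AP

theorem GP.mono {B B' l : ℕ} (h : GP B l) (hB : B' ≤ B) : GP B' l :=
  ⟨h.1, h.2.1, lt_of_le_of_lt hB h.2.2.1, fun m h1 h2 => h.2.2.2 m h1 (h2.trans hB)⟩

section
variable {R : Type*} [CommRing R]

theorem good_iter {P : Pt R} (h : Good P) (e : Fin 3) (n : ℕ) : Good ((step e)^[n] P) := by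
  induction n with
  | zero => exact h
  | succ n ih => rw [Function.iterate_succ_apply']; exact good_step ih e

theorem good_Bn {n : ℕ} (α : List (Fin 3)) : ∀ {P : Pt R}, Good P → Good (Bn n α P) := by
  induction α with
  | nil => intro P h; exact h
  | cons e α ih => intro P h; exact ih (good_iter h e n)

theorem iter_fix {Y : Pt R} {e : Fin 3} {N n : ℕ} (h : (step e)^[N] Y = Y) (hn : N ∣ n) :
    (step e)^[n] Y = Y := by
  obtain ⟨k, rfl⟩ := hn
  rw [Function.iterate_mul]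
  induction k with
  | zero => rfl
  | succ k ih => rw [Function.iterate_succ_apply, h, ih]

theorem Bn_fix {Y : Pt R} {N n : ℕ} (h : ∀ e, (step e)^[N] Y = Y) (hn : N ∣ n)
    (α : List (Fin 3)) : Bn n α Y = Y := by
  induction α with
  | nil => rfl
  | cons e α ih =>
    show Bn n α ((step e)^[n] Y) = Y
    rw [iter_fix (h e) hn, ih]

end

/-- The period statement of module PER. -/
def Period : Prop := ∀ X : Pt ℤ, Good X → Neg X → ∃ B : ℕ, ∀ l, GP B l → ∀ e,
    (step e)^[NN l] (red l X) = red l X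

theorem neg_BB (α : List (Fin 3)) : ∀ {X : Pt ℤ}, Neg X → Neg (BB α X) := by
  induction α with
  | nil => intro X h; exact h
  | cons e α ih => intro X h; exact ih (neg_back h e)

theorem Bn_back (hper : Period) (α : List (Fin 3)) : ∀ X : Pt ℤ, Good X → Neg X →
    ∃ B : ℕ, ∀ l, GP B l → ∀ n, NN l ∣ n + 1 → Bn n α (red l X) = red l (BB α X) := by
  induction α with
  | nil => intro X _ _; exact ⟨0, fun l _ n _ => rfl⟩
  | cons e α ih =>
    intro X hg hn
    obtain ⟨B1, h1⟩ := ih (back e X) (good_back hg e) (neg_back hn e)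
    obtain ⟨B2, h2⟩ := hper X hg hn
    refine ⟨max B1 B2, fun l hl n hd => ?_⟩
    have hp := h2 l (hl.mono (le_max_right _ _)) e
    have h3 : (step e)^[n + 1] (red l X) = red l X := iter_fix hp hd
    have h4 : (step e)^[n] (red l X) = back e (red l X) := by
      rw [Function.iterate_succ_apply'] at h3
      have h5 := back_step (good_iter (good_red (l := l) hg) e n) e
      rw [h3] at h5
      exact h5.symm
    show Bn n α ((step e)^[n] (red l X)) = red l (BB α (back e X))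
    rw [h4, ← red_back]
    exact h1 l (hl.mono (le_max_left _ _)) n hd

/-- Nonnegative labels, positive roots. -/
def NonN (X : Pt ℤ) : Prop :=
  0 ≤ X.a ∧ 0 ≤ X.b ∧ 0 ≤ X.c ∧ 1 ≤ X.r ∧ 1 ≤ X.s ∧ 1 ≤ X.t

theorem NonN.fw_pos {X : Pt ℤ} (h : NonN X) : 1 ≤ fw X := by
  obtain ⟨ha, hb, hc, hr, hs, ht⟩ := h
  have h1 : 1 ≤ X.r * X.s := by nlinarith
  have h2 : 1 ≤ X.r * X.s * X.t := by nlinarith
  have h3 : 0 ≤ X.a * X.b * X.c := mul_nonneg (mul_nonneg ha hb) hc
  unfold fw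
  nlinarith

theorem NonN.step {X : Pt ℤ} (h : NonN X) (e : Fin 3) : NonN (step e X) := by
  have hf := h.fw_pos
  obtain ⟨ha, hb, hc, hr, hs, ht⟩ := h
  have e1 : 1 ≤ X.r * X.t := by nlinarith
  have e2 : 1 ≤ X.s * X.t := by nlinarith
  have e3 : 1 ≤ X.r * X.s := by nlinarith
  have f1 : 0 ≤ X.b * X.s := by positivity
  have f2 : 0 ≤ X.c * X.r := by positivity
  have f3 : 0 ≤ X.a * X.t := by positivity
  fin_cases e
  · exact ⟨by simp only [AP.step]; omega, hb, hc, by simp only [AP.step]; omega,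
      by simp only [AP.step]; omega, ht⟩
  · exact ⟨ha, by simp only [AP.step]; omega, hc, by simp only [AP.step]; omega, hs,
      by simp only [AP.step]; omega⟩
  · exact ⟨ha, hb, by simp only [AP.step]; omega, hr, by simp only [AP.step]; omega,
      by simp only [AP.step]; omega⟩

theorem Pos.nonN {X : Pt ℤ} (h : Pos X) : NonN X :=
  ⟨by have := h.1; omega, by have := h.2.1; omega, by have := h.2.2.1; omega, h.2.2.2.1,
    h.2.2.2.2.1, h.2.2.2.2.2⟩

theorem Pos.step {X : Pt ℤ} (h : Pos X) (e : Fin 3) : Pos (step e X) := by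
  have hf := h.nonN.fw_pos
  have hn := h.nonN.step e
  fin_cases e
  · exact ⟨hf, h.2.1, h.2.2.1, hn.2.2.2.1, hn.2.2.2.2.1, hn.2.2.2.2.2⟩
  · exact ⟨h.1, hf, h.2.2.1, hn.2.2.2.1, hn.2.2.2.2.1, hn.2.2.2.2.2⟩
  · exact ⟨h.1, h.2.1, hf, hn.2.2.2.1, hn.2.2.2.2.1, hn.2.2.2.2.2⟩

theorem Pos.iter {X : Pt ℤ} (h : Pos X) (e : Fin 3) (n : ℕ) : Pos ((AP.step e)^[n] X) := by
  induction n with
  | zero => exact h
  | succ n ih => rw [Function.iterate_succ_apply']; exact ih.step e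

theorem Pos.Bn {n : ℕ} (α : List (Fin 3)) : ∀ {X : Pt ℤ}, Pos X → Pos (AP.Bn n α X) := by
  induction α with
  | nil => intro X h; exact h
  | cons e α ih => intro X h; exact ih (h.iter e n)

/-- A positive start. -/
theorem pos_start {X : Pt ℤ} (h : NonN X) (hc : 1 ≤ X.c) (m : ℕ) :
    Pos ((step 1)^[m + 1] ((step 0)^[m + 1] X)) := by
  have h0 : ∀ k : ℕ, NonN ((step 0)^[k] X) ∧ 1 ≤ ((step 0)^[k] X).c := by
    intro k
    induction k with
    | zero => exact ⟨h, hc⟩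
    | succ k ih =>
      rw [Function.iterate_succ_apply']
      exact ⟨ih.1.step 0, ih.2⟩
  have h1 : NonN ((step 0)^[m + 1] X) ∧ 1 ≤ ((step 0)^[m + 1] X).a ∧
      1 ≤ ((step 0)^[m + 1] X).c := by
    refine ⟨(h0 _).1, ?_, (h0 _).2⟩
    rw [Function.iterate_succ_apply']
    exact (h0 m).1.fw_pos
  generalize (step 0)^[m + 1] X = Y at h1
  have h2 : ∀ k : ℕ, NonN ((step 1)^[k] Y) ∧ 1 ≤ ((step 1)^[k] Y).a ∧
      1 ≤ ((step 1)^[k] Y).c := by
    intro k
    induction k with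
    | zero => exact h1
    | succ k ih =>
      rw [Function.iterate_succ_apply']
      exact ⟨ih.1.step 1, ih.2.1, ih.2.2⟩
  have h3 := h2 (m + 1)
  have h4 : 1 ≤ ((step 1)^[m + 1] Y).b := by
    rw [Function.iterate_succ_apply']
    exact (h2 m).1.fw_pos
  exact ⟨h3.2.1, h4, h3.2.2, h3.1.2.2.2.1, h3.1.2.2.2.2.1, h3.1.2.2.2.2.2⟩

/-- The blocks one after the other. -/
def fold (n : List (Fin 3) → ℕ) : List (List (Fin 3)) → Pt ℤ → Pt ℤ
  | [], P => P
  | α :: L, P => Bn (n α) α (fold n L P)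

theorem good_fold (n : List (Fin 3) → ℕ) (L : List (List (Fin 3))) {P : Pt ℤ} (h : Good P) :
    Good (fold n L P) := by
  induction L with
  | nil => exact h
  | cons α L ih => exact good_Bn α ih

theorem pos_fold (n : List (Fin 3) → ℕ) (L : List (List (Fin 3))) {P : Pt ℤ} (h : Pos P) :
    Pos (fold n L P) := by
  induction L with
  | nil => exact h
  | cons α L ih => exact Pos.Bn α ih

theorem fold_red (n : List (Fin 3) → ℕ) (p : List (Fin 3) → ℕ) (A : Finset (List (Fin 3)))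
    (hO : ∀ β ∈ A, ∀ e, (step e)^[NN (p β)] (red (p β) Om) = red (p β) Om)
    (hB : ∀ β ∈ A, ∀ e, (step e)^[NN (p β)] (red (p β) (BB β Om)) = red (p β) (BB β Om))
    (hn : ∀ α ∈ A, ∀ β ∈ A, β ≠ α → NN (p β) ∣ n α)
    (hb : ∀ α ∈ A, Bn (n α) α (red (p α) Om) = red (p α) (BB α Om))
    {P : Pt ℤ} (L : List (List (Fin 3))) (hL : L.Nodup) (hLA : ∀ α ∈ L, α ∈ A)
    (hP : ∀ β ∈ A, red (p β) P = red (p β) Om) :
    ∀ β ∈ A, (β ∉ L → red (p β) (fold n L P) = red (p β) Om) ∧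
      (β ∈ L → red (p β) (fold n L P) = red (p β) (BB β Om)) := by
  induction L with
  | nil => intro β hβ; exact ⟨fun _ => hP β hβ, fun h => absurd h (by simp)⟩
  | cons α L ih =>
    rw [List.nodup_cons] at hL
    have hα : α ∈ A := hLA α (by simp)
    intro β hβ
    have hI := ih hL.2 (fun γ hγ => hLA γ (by simp [hγ])) β hβ
    have hred : red (p β) (fold n (α :: L) P) = Bn (n α) α (red (p β) (fold n L P)) :=
      red_Bn _ _ _ _
    rw [hred]
    constructor
    · intro hx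
      rw [List.mem_cons, not_or] at hx
      rw [hI.1 hx.2]
      exact Bn_fix (hO β hβ) (hn α hα β hβ hx.1) α
    · intro hx
      by_cases hba : β = α
      · subst hba
        rw [hI.1 hL.1]
        exact hb β hβ
      · have hβL : β ∈ L := by
          rcases List.mem_cons.mp hx with h | h
          · exact absurd h hba
          · exact h
        rw [hI.2 hβL]
        exact Bn_fix (hB β hβ) (hn α hα β hβ hba) α

theorem NN_pos {B l : ℕ} (h : GP B l) : 1 ≤ NN l := by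
  unfold NN
  have h2 := h.2.1
  have : 1 ≤ (l - 1) / 2 := by omega
  exact Nat.one_le_iff_ne_zero.mpr (Nat.mul_ne_zero (by omega) (by omega))

theorem crt (A : Finset (List (Fin 3))) (N : List (Fin 3) → ℕ) (hN : ∀ α, 1 ≤ N α)
    (hc : ∀ α β, α ≠ β → (N α).Coprime (N β)) (α : List (Fin 3)) :
    ∃ n : ℕ, N α ∣ n + 1 ∧ ∀ β ∈ A, β ≠ α → N β ∣ n := by
  classical
  have hK : (∏ β ∈ A.erase α, N β).Coprime (N α) := by
    apply Nat.Coprime.prod_left
    intro β hβ
    exact hc β α (Finset.ne_of_mem_erase hβ)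
  obtain ⟨k, hk1, hk2⟩ := Nat.chineseRemainder hK 0 (N α - 1)
  refine ⟨k, ?_, ?_⟩
  · have h1 : k + 1 ≡ N α - 1 + 1 [MOD N α] := hk2.add_right 1
    have h2 : N α - 1 + 1 = N α := Nat.sub_add_cancel (hN α)
    rw [h2] at h1
    exact (Nat.modEq_zero_iff_dvd).mp (h1.trans (by simp [Nat.ModEq]))
  · intro β hβ hne
    have h1 : (∏ β ∈ A.erase α, N β) ∣ k := (Nat.modEq_zero_iff_dvd).mp hk1
    exact (Finset.dvd_prod_of_mem N (Finset.mem_erase.mpr ⟨hne, hβ⟩)).trans h1

theorem block_of (hper : Period) (A : Finset (List (Fin 3))) :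
    ∃ B₀ : ℕ, ∀ p : List (Fin 3) → ℕ,
    (∀ α, GP B₀ (p α)) → (∀ α β, α ≠ β → (NN (p α)).Coprime (NN (p β))) →
    ∃ P : Pt ℤ, Good P ∧ Pos P ∧ ∀ α ∈ A, red (p α) P = red (p α) (BB α Om) := by
  classical
  obtain ⟨BO, hBO⟩ := hper Om good_Om neg_Om
  have hper' : ∀ α : List (Fin 3), ∃ B : ℕ, ∀ l, GP B l → ∀ e,
      (step e)^[NN l] (red l (BB α Om)) = red l (BB α Om) :=
    fun α => hper _ (good_BB good_Om α) (neg_BB α neg_Om)
  choose B1 hB1 using hper'
  have hbk := fun α => Bn_back hper α Om good_Om neg_Om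
  choose B2 hB2 using hbk
  refine ⟨max BO (max (A.sup B1) (A.sup B2)), fun p hp hc => ?_⟩
  have hN : ∀ α, 1 ≤ NN (p α) := fun α => NN_pos (hp α)
  have hcrt := fun α => crt A (fun β => NN (p β)) hN hc α
  choose n hn1 hn2 using hcrt
  have g0 : ∀ β ∈ A, GP BO (p β) := fun β _ => (hp β).mono (le_max_left _ _)
  have g1 : ∀ β ∈ A, GP (B1 β) (p β) := fun β hβ =>
    (hp β).mono (((Finset.le_sup hβ).trans (le_max_left _ _)).trans (le_max_right _ _))
  have g2 : ∀ β ∈ A, GP (B2 β) (p β) := fun β hβ =>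
    (hp β).mono (((Finset.le_sup hβ).trans (le_max_right _ _)).trans (le_max_right _ _))
  -- the start
  set Q : ℕ := ∏ α ∈ A, p α with hQ
  have hQ1 : 1 ≤ Q := Nat.one_le_iff_ne_zero.mpr
    (Finset.prod_ne_zero_iff.mpr fun α _ => (hp α).1.ne_zero)
  set P0 : Pt ℤ := ⟨0, 0, 2 * (Q : ℤ) - 1, 1, 1, 1⟩ with hP0
  have hP0g : Good P0 := by refine ⟨?_, ?_, ?_⟩ <;> simp [hP0]
  have hP0n : NonN P0 := by
    refine ⟨le_refl _, le_refl _, ?_, le_refl _, le_refl _, le_refl _⟩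
    simp only [hP0]; omega
  have hP0c : 1 ≤ P0.c := by simp only [hP0]; omega
  have hP0r : ∀ β ∈ A, red (p β) P0 = red (p β) Om := by
    intro β hβ
    have hd : p β ∣ Q := Finset.dvd_prod_of_mem p hβ
    have hz : ((Q : ℕ) : ZMod (p β)) = 0 := (ZMod.natCast_eq_zero_iff _ _).mpr hd
    simp only [red, hP0, Om]
    push_cast
    rw [hz]
    simp
  set m : ℕ := ∏ α ∈ A, NN (p α) with hm
  have hm1 : 1 ≤ m := Nat.one_le_iff_ne_zero.mpr
    (Finset.prod_ne_zero_iff.mpr fun α _ => by have := hN α; omega)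
  obtain ⟨k, hk⟩ : ∃ k, m = k + 1 := ⟨m - 1, by omega⟩
  set P1 : Pt ℤ := (step 1)^[m] ((step 0)^[m] P0) with hP1
  have hP1p : Pos P1 := by
    rw [hP1, hk]; exact pos_start hP0n hP0c k
  have hP1g : Good P1 := good_iter (good_iter hP0g 0 m) 1 m
  have hP1r : ∀ β ∈ A, red (p β) P1 = red (p β) Om := by
    intro β hβ
    have hd : NN (p β) ∣ m := Finset.dvd_prod_of_mem (fun α => NN (p α)) hβ
    rw [hP1, red_iter, red_iter, hP0r β hβ, iter_fix (hBO _ (g0 β hβ) 0) hd,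
      iter_fix (hBO _ (g0 β hβ) 1) hd]
  refine ⟨fold n A.toList P1, good_fold n _ hP1g, pos_fold n _ hP1p, fun β hβ => ?_⟩
  exact (fold_red n p A (fun β hβ => hBO _ (g0 β hβ)) (fun β hβ => hB1 β _ (g1 β hβ))
    (fun α _ β hβ hne => hn2 α β hβ hne)
    (fun α hα => hB2 α _ (g2 α hα) _ (hn1 α)) A.toList (Finset.nodup_toList A)
    (fun α hα => Finset.mem_toList.mp hα) hP1r β hβ).2 (Finset.mem_toList.mpr hβ)

theorem block (A : Finset (List (Fin 3))) : ∃ B₀ : ℕ, ∀ p : List (Fin 3) → ℕ,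
    (∀ α, GP B₀ (p α)) → (∀ α β, α ≠ β → (NN (p α)).Coprime (NN (p β))) →
    ∃ P : Pt ℤ, Good P ∧ Pos P ∧ ∀ α ∈ A, red (p α) P = red (p α) (BB α Om) :=
  block_of (fun _ hg hn => period hg hn) A

end Pool.Agent.Helper59.AP
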