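import Pool.Agent.Helper59.AP.Fin
import Pool.Agent.Helper56.DioGraph

namespace Pool.Agent.Helper59.AP

open Pool.Agent.Helper56.Dio Finset

/-- The vertex sets of `G` that can be built by three operations: start with a set `S` (possibly
empty) on which `G` is an induced subgraph of a planar 3-tree `H` (`Network H univ F`); add one
vertex with at most two neighbours among the vertices already present; for two adjacent vertices
`a`, `b` already present, add an induced path `p 0, ..., p (m - 1)` all of whose vertices have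
exactly `a` and `b` as neighbours among the vertices already present. -/
inductive Built {V : Type*} [DecidableEq V] (G : SimpleGraph V) : Finset V → Prop
  | network (S : Finset V) (n : ℕ) (H : SimpleGraph (Fin n))
      (F : Finset (Fin n × Fin n × Fin n)) (φ : V → Fin n) : Network H Finset.univ F →
      (∀ u ∈ S, ∀ v ∈ S, φ u = φ v → u = v) →
      (∀ u ∈ S, ∀ v ∈ S, (G.Adj u v ↔ H.Adj (φ u) (φ v))) → Built G S
  | vertex (S : Finset V) (v : V) : Built G S → v ∉ S →
      (∃ a b : V, ∀ u ∈ S, G.Adj u v → u = a ∨ u = b) → Built G (insert v S)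
  | path (S : Finset V) (a b : V) (m : ℕ) (p : ℕ → V) : Built G S → a ∈ S → b ∈ S →
      G.Adj a b → (∀ i < m, p i ∉ S) → (∀ i < m, ∀ j < m, p i = p j → i = j) →
      (∀ i < m, ∀ u ∈ S, (G.Adj u (p i) ↔ u = a ∨ u = b)) →
      (∀ i j, i < j → j < m → (G.Adj (p i) (p j) ↔ j = i + 1)) →
      Built G (S ∪ (Finset.range m).image p)

theorem strong_of_network {V : Type*} [DecidableEq V] {G : SimpleGraph V} (S : Finset V) (n : ℕ)
    (H : SimpleGraph (Fin n)) (F : Finset (Fin n × Fin n × Fin n)) (φ : V → Fin n)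
    (h : Network H Finset.univ F) (h1 : ∀ u ∈ S, ∀ v ∈ S, φ u = φ v → u = v)
    (h2 : ∀ u ∈ S, ∀ v ∈ S, (G.Adj u v ↔ H.Adj (φ u) (φ v))) : ∃ f : V → ℕ, Strong G S f := by
  obtain ⟨ψ, hinj, hadj⟩ := embed H Finset.univ F h
  obtain ⟨P, _, hpos, hlab⟩ := labels (Finset.univ.image ψ)
  have hm : ∀ w : Fin n, ψ w ∈ Finset.univ.image ψ :=
    fun w => Finset.mem_image_of_mem _ (Finset.mem_univ _)
  have hcast : ∀ w : Fin n, (((lab P (ψ w)).toNat : ℕ) : ℤ) = lab P (ψ w) :=
    fun w => Int.toNat_of_nonneg (hpos _ (hm w)).le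
  refine ⟨fun v => (lab P (ψ (φ v))).toNat, fun u _ => ?_, fun u hu v hv huv => ?_⟩
  · have := hpos _ (hm (φ u))
    show 0 < (lab P (ψ (φ u))).toNat
    omega
  · have h3 : φ u ≠ φ v := fun h => huv (h1 u hu v hv h)
    have h4 : ψ (φ u) ≠ ψ (φ v) :=
      fun h => h3 (hinj _ (Finset.mem_univ _) _ (Finset.mem_univ _) h)
    obtain ⟨_, h5, h6⟩ := hlab _ (hm (φ u)) _ (hm (φ v)) h4
    constructor
    · show ¬ IsSquare ((lab P (ψ (φ u))).toNat * (lab P (ψ (φ v))).toNat)
      rw [← Int.isSquare_natCast_iff]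
      push_cast
      rw [hcast, hcast]
      exact h5
    · show G.Adj u v ↔ IsSquare ((lab P (ψ (φ u))).toNat * (lab P (ψ (φ v))).toNat + 1)
      rw [h2 u hu v hv, hadj _ (Finset.mem_univ _) _ (Finset.mem_univ _) h3, h6,
        ← Int.isSquare_natCast_iff]
      push_cast
      rw [hcast, hcast]

theorem strong_of_built {V : Type*} [DecidableEq V] {G : SimpleGraph V} {S : Finset V}
    (h : Built G S) : ∃ f : V → ℕ, Strong G S f := by
  induction h with
  | network S n H F φ h h1 h2 => exact strong_of_network S n H F φ h h1 h2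
  | vertex S v _ hv hxy ih =>
    obtain ⟨f, hf⟩ := ih
    obtain ⟨x, y, hxy⟩ := hxy
    exact add_vertex hf v hv x y hxy
  | path S a b m p _ ha hb hadj h1 h2 h3 h4 ih =>
    obtain ⟨f, hf⟩ := ih
    exact add_path hf a b m p ha hb hadj h1 h2 h3 h4

/-- Every finite graph that can be built is Diophantine. -/
theorem comb {V : Type*} [Fintype V] [DecidableEq V] (G : SimpleGraph V)
    (h : Built G Finset.univ) : IsDiophantine G := by
  obtain ⟨f, hf⟩ := strong_of_built h
  exact ⟨f, fun v => hf.1 v (mem_univ v), fun u v huv => hf.inj (mem_univ u) (mem_univ v) huv,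
    fun u v huv => (hf.2 u (mem_univ u) v (mem_univ v) huv).2⟩

end Pool.Agent.Helper59.AP
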