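import Mathlib
import Pool.Agent.Helper56.DioDefs

namespace Pool.Agent.Helper59.AP

/-- `Network G S F`: the vertex set `S` of `G` and the list `F` of free faces are reached from a
triangle by repeatedly choosing a free face `(a, b, c)` and adding a new vertex `v` whose
neighbours among the vertices already present are exactly `a`, `b`, `c`; the face `(a, b, c)` is
then replaced by the three faces `(a, b, v)`, `(a, v, c)`, `(v, b, c)`. -/
inductive Network {V : Type*} [DecidableEq V] (G : SimpleGraph V) :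
    Finset V → Finset (V × V × V) → Prop
  | triangle (a b c : V) : G.Adj a b → G.Adj a c → G.Adj b c →
      Network G {a, b, c} {(a, b, c)}
  | stack (S : Finset V) (F : Finset (V × V × V)) (a b c v : V) : Network G S F →
      (a, b, c) ∈ F → v ∉ S → (∀ u ∈ S, (G.Adj u v ↔ u = a ∨ u = b ∨ u = c)) →
      Network G (insert v S)
        (insert (a, b, v) (insert (a, v, c) (insert (v, b, c) (F.erase (a, b, c)))))

/-- A triple with the square roots `r, s, t` of `ab+1, ac+1, bc+1`. -/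
@[ext] structure Pt (R : Type*) where
  a : R
  b : R
  c : R
  r : R
  s : R
  t : R

section
variable {R : Type*} [CommRing R]

def Good (P : Pt R) : Prop :=
  P.r ^ 2 = P.a * P.b + 1 ∧ P.s ^ 2 = P.a * P.c + 1 ∧ P.t ^ 2 = P.b * P.c + 1

def fw (P : Pt R) : R := P.a + P.b + P.c + 2 * P.a * P.b * P.c + 2 * P.r * P.s * P.t

def bw (P : Pt R) : R := P.a + P.b + P.c + 2 * P.a * P.b * P.c - 2 * P.r * P.s * P.t

def step (e : Fin 3) (P : Pt R) : Pt R :=
  match e with
  | 0 => ⟨fw P, P.b, P.c, P.r * P.t + P.b * P.s, P.s * P.t + P.c * P.r, P.t⟩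
  | 1 => ⟨P.a, fw P, P.c, P.r * P.s + P.a * P.t, P.s, P.s * P.t + P.c * P.r⟩
  | 2 => ⟨P.a, P.b, fw P, P.r, P.r * P.s + P.a * P.t, P.r * P.t + P.b * P.s⟩

def back (e : Fin 3) (P : Pt R) : Pt R :=
  match e with
  | 0 => ⟨bw P, P.b, P.c, P.r * P.t - P.b * P.s, P.s * P.t - P.c * P.r, P.t⟩
  | 1 => ⟨P.a, bw P, P.c, P.r * P.s - P.a * P.t, P.s, P.s * P.t - P.c * P.r⟩
  | 2 => ⟨P.a, P.b, bw P, P.r, P.r * P.s - P.a * P.t, P.r * P.t - P.b * P.s⟩

def cor (P : Pt R) : Fin 3 → R := ![P.a, P.b, P.c]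

/-- Words are read from the right: the head is the last move. -/
def TT (P : Pt R) : List (Fin 3) → Pt R
  | [] => P
  | e :: α => step e (TT P α)

def BB : List (Fin 3) → Pt R → Pt R
  | [], X => X
  | e :: α, X => BB α (back e X)

def Bn (n : ℕ) : List (Fin 3) → Pt R → Pt R
  | [], X => X
  | e :: α, X => Bn n α ((step e)^[n] X)

end

/-- The vertices of the infinite network: three base vertices and one vertex for each word. -/
abbrev VV := Fin 3 ⊕ List (Fin 3)

/-- The three corners of the triangle with the given word. -/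
def corner : List (Fin 3) → Fin 3 → VV
  | [], i => Sum.inl i
  | e :: α, i => if i = e then Sum.inr α else corner α i

def lab {R : Type*} [CommRing R] (P : Pt R) : VV → R
  | Sum.inl i => cor P i
  | Sum.inr α => fw (TT P α)

/-- Adjacency in the infinite network. -/
def AA (u v : VV) : Prop :=
  (∃ i j : Fin 3, i ≠ j ∧ u = Sum.inl i ∧ v = Sum.inl j) ∨
  (∃ (α : List (Fin 3)) (i : Fin 3), u = Sum.inr α ∧ v = corner α i) ∨
  (∃ (α : List (Fin 3)) (i : Fin 3), v = Sum.inr α ∧ u = corner α i)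

/-- The base point of the negative world. -/
def Om : Pt ℤ := ⟨0, 0, -1, 1, 1, 1⟩

def Neg (X : Pt ℤ) : Prop :=
  X.a ≤ 0 ∧ X.b ≤ 0 ∧ X.c ≤ 0 ∧ 1 ≤ X.r ∧ 1 ≤ X.s ∧ 1 ≤ X.t

def Pos (X : Pt ℤ) : Prop :=
  1 ≤ X.a ∧ 1 ≤ X.b ∧ 1 ≤ X.c ∧ 1 ≤ X.r ∧ 1 ≤ X.s ∧ 1 ≤ X.t

/-- Reduction modulo `l`. -/
def red (l : ℕ) (X : Pt ℤ) : Pt (ZMod l) := ⟨X.a, X.b, X.c, X.r, X.s, X.t⟩

/-- Good primes: above `B`, the numbers `1, ..., B` are squares, their negatives are not. -/
def GP (B l : ℕ) : Prop := l.Prime ∧ 2 < l ∧ B < l ∧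
  ∀ m : ℕ, 1 ≤ m → m ≤ B → IsSquare (m : ZMod l) ∧ ¬ IsSquare (-(m : ZMod l))

def NN (l : ℕ) : ℕ := l * ((l - 1) / 2)

end Pool.Agent.Helper59.AP
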