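import Pool.Agent.Helper59.AP.Defs

namespace Pool.Agent.Helper59.AP

theorem AA_symm {u v : VV} (h : AA u v) : AA v u := by
  rcases h with ⟨i, j, hij, hu, hv⟩ | ⟨α, i, hu, hv⟩ | ⟨α, i, hv, hu⟩
  · exact Or.inl ⟨j, i, hij.symm, hv, hu⟩
  · exact Or.inr (Or.inr ⟨α, i, hu, hv⟩)
  · exact Or.inr (Or.inl ⟨α, i, hv, hu⟩)

theorem corner_inr {w : List (Fin 3)} : ∀ {α : List (Fin 3)} {i : Fin 3},
    corner α i = Sum.inr w → ∃ δ, α = δ ++ i :: w
  | [], i, h => by simp [corner] at h
  | e :: α, i, h => by
    by_cases hi : i = e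
    · subst hi
      simp only [corner, if_true, Sum.inr.injEq] at h
      exact ⟨[], by simp [h]⟩
    · simp only [corner, hi, if_false] at h
      obtain ⟨δ, hδ⟩ := corner_inr h
      exact ⟨e :: δ, by simp [hδ]⟩

/-- The three faces which replace the face `(a, b, c)`. -/
def nf {V : Type*} (a b c v : V) (e : Fin 3) : V × V × V :=
  match e with
  | 0 => (v, b, c)
  | 1 => (a, v, c)
  | 2 => (a, b, v)

theorem embed_aux {V : Type*} [DecidableEq V] (G : SimpleGraph V) (S : Finset V)
    (F : Finset (V × V × V)) (h : Network G S F) :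
    ∃ (φ : V → VV) (wd : V × V × V → List (Fin 3)),
      (∀ u ∈ S, ∀ v ∈ S, φ u = φ v → u = v) ∧
      (∀ u ∈ S, ∀ v ∈ S, u ≠ v → (G.Adj u v ↔ AA (φ u) (φ v))) ∧
      (∀ f ∈ F, φ f.1 = corner (wd f) 0 ∧ φ f.2.1 = corner (wd f) 1 ∧
        φ f.2.2 = corner (wd f) 2) ∧
      (∀ f ∈ F, ∀ u ∈ S, ∀ δ, φ u ≠ Sum.inr (δ ++ wd f)) ∧
      (∀ f ∈ F, ∀ g ∈ F, f ≠ g → ∀ δ, wd g ≠ δ ++ wd f) ∧
      (∀ f ∈ F, f.1 ∈ S ∧ f.2.1 ∈ S ∧ f.2.2 ∈ S) := by
  induction h with
  | triangle a b c hab hac hbc =>
    have h1 : a ≠ b := hab.ne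
    have h2 : a ≠ c := hac.ne
    have h3 : b ≠ c := hbc.ne
    let φ : V → VV := fun x => if x = a then Sum.inl 0 else if x = b then Sum.inl 1 else Sum.inl 2
    have ea : φ a = Sum.inl 0 := by simp [φ]
    have eb : φ b = Sum.inl 1 := by simp [φ, h1.symm]
    have ec : φ c = Sum.inl 2 := by simp [φ, h2.symm, h3.symm]
    refine ⟨φ, fun _ => [], ?_, ?_, ?_, ?_, ?_, ?_⟩
    · intro u hu v hv huv
      simp only [Finset.mem_insert, Finset.mem_singleton] at hu hv
      rcases hu with rfl | rfl | rfl <;> rcases hv with rfl | rfl | rfl <;>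
        simp [ea, eb, ec] at huv ⊢
    · intro u hu v hv huv
      simp only [Finset.mem_insert, Finset.mem_singleton] at hu hv
      have key : ∀ i j : Fin 3, i ≠ j → AA (Sum.inl i) (Sum.inl j) := fun i j hij =>
        Or.inl ⟨i, j, hij, rfl, rfl⟩
      rcases hu with rfl | rfl | rfl <;> rcases hv with rfl | rfl | rfl
      · exact absurd rfl huv
      · rw [ea, eb]; exact ⟨fun _ => key _ _ (by decide), fun _ => hab⟩
      · rw [ea, ec]; exact ⟨fun _ => key _ _ (by decide), fun _ => hac⟩
      · rw [ea, eb]; exact ⟨fun _ => key _ _ (by decide), fun _ => hab.symm⟩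
      · exact absurd rfl huv
      · rw [eb, ec]; exact ⟨fun _ => key _ _ (by decide), fun _ => hbc⟩
      · rw [ea, ec]; exact ⟨fun _ => key _ _ (by decide), fun _ => hac.symm⟩
      · rw [eb, ec]; exact ⟨fun _ => key _ _ (by decide), fun _ => hbc.symm⟩
      · exact absurd rfl huv
    · intro f hf
      rw [Finset.mem_singleton] at hf
      subst hf
      exact ⟨ea, eb, ec⟩
    · intro f _ u _ δ hu
      simp only [φ] at hu
      split_ifs at hu
    · intro f hf g hg hfg
      rw [Finset.mem_singleton] at hf hg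
      exact absurd (hf.trans hg.symm) hfg
    · intro f hf
      rw [Finset.mem_singleton] at hf
      subst hf
      simp
  | stack S F a b c v hN hf hv hadj ih =>
    obtain ⟨φ, wd, hinj, hA, hc, hn, hs, hm⟩ := ih
    obtain ⟨ma, mb, mc⟩ := hm _ hf
    obtain ⟨ca, cb, cc⟩ := hc _ hf
    simp only at ma mb mc ca cb cc
    set w := wd (a, b, c) with hw
    have va : v ≠ a := fun h => hv (h ▸ ma)
    have vb : v ≠ b := fun h => hv (h ▸ mb)
    have vc : v ≠ c := fun h => hv (h ▸ mc)
    have neu : ∀ u ∈ S, u ≠ v := fun u hu h => hv (h ▸ hu)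
    have nfinj : ∀ e e' : Fin 3, nf a b c v e = nf a b c v e' → e = e' := by
      intro e e' h
      fin_cases e <;> fin_cases e' <;>
        simp [nf, Prod.ext_iff, va, vb, vc, va.symm, vb.symm, vc.symm] at h ⊢
    have nfF : ∀ g ∈ F, ∀ e, g ≠ nf a b c v e := by
      intro g hg e he
      obtain ⟨g1, g2, g3⟩ := hm g hg
      subst he
      fin_cases e
      · exact hv g1
      · exact hv g2
      · exact hv g3
    let φ' : V → VV := Function.update φ v (Sum.inr w)
    let wd' : V × V × V → List (Fin 3) := fun g =>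
      if g = nf a b c v 0 then 0 :: w else if g = nf a b c v 1 then 1 :: w else
        if g = nf a b c v 2 then 2 :: w else wd g
    have φv : φ' v = Sum.inr w := by simp [φ']
    have φu : ∀ u ∈ S, φ' u = φ u := fun u hu => by simp [φ', neu u hu]
    have wn : ∀ e, wd' (nf a b c v e) = e :: w := by
      intro e
      fin_cases e
      · simp [wd']
      · have : nf a b c v 1 ≠ nf a b c v 0 := fun h => by
          have := nfinj _ _ h; exact absurd this (by decide)
        simp [wd', this]
      · have h1 : nf a b c v 2 ≠ nf a b c v 0 := fun h => by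
          have := nfinj _ _ h; exact absurd this (by decide)
        have h2 : nf a b c v 2 ≠ nf a b c v 1 := fun h => by
          have := nfinj _ _ h; exact absurd this (by decide)
        simp [wd', h1, h2]
    have wo : ∀ g ∈ F, wd' g = wd g := by
      intro g hg
      simp only [wd', nfF g hg, if_false]
    have memF : ∀ g, g ∈ insert (a, b, v) (insert (a, v, c) (insert (v, b, c)
        (F.erase (a, b, c)))) ↔ (∃ e, g = nf a b c v e) ∨ (g ∈ F ∧ g ≠ (a, b, c)) := by
      intro g
      simp only [Finset.mem_insert, Finset.mem_erase]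
      constructor
      · rintro (h | h | h | ⟨h1, h2⟩)
        · exact Or.inl ⟨2, h⟩
        · exact Or.inl ⟨1, h⟩
        · exact Or.inl ⟨0, h⟩
        · exact Or.inr ⟨h2, h1⟩
      · rintro (⟨e, h⟩ | ⟨h2, h1⟩)
        · fin_cases e
          · exact Or.inr (Or.inr (Or.inl h))
          · exact Or.inr (Or.inl h)
          · exact Or.inl h
        · exact Or.inr (Or.inr (Or.inr ⟨h1, h2⟩))
    have adjv : ∀ u ∈ S, (G.Adj u v ↔ AA (φ u) (Sum.inr w)) := by
      intro u hu
      rw [hadj u hu]
      constructor
      · rintro (rfl | rfl | rfl)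
        · exact Or.inr (Or.inr ⟨w, 0, rfl, ca⟩)
        · exact Or.inr (Or.inr ⟨w, 1, rfl, cb⟩)
        · exact Or.inr (Or.inr ⟨w, 2, rfl, cc⟩)
      · rintro (⟨i, j, _, _, h⟩ | ⟨α, i, h1, h2⟩ | ⟨α, i, h1, h2⟩)
        · simp at h
        · obtain ⟨δ, hδ⟩ := corner_inr h2.symm
          exact absurd h1 (by rw [hδ]; have := hn _ hf u hu (δ ++ [i]); simpa using this)
        · have hα : w = α := by simpa using h1
          subst hα
          fin_cases i
          · exact Or.inl (hinj u hu a ma (h2.trans ca.symm))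
          · exact Or.inr (Or.inl (hinj u hu b mb (h2.trans cb.symm)))
          · exact Or.inr (Or.inr (hinj u hu c mc (h2.trans cc.symm)))
    refine ⟨φ', wd', ?_, ?_, ?_, ?_, ?_, ?_⟩
    · intro x hx y hy hxy
      rw [Finset.mem_insert] at hx hy
      rcases hx with rfl | hx <;> rcases hy with rfl | hy
      · rfl
      · rw [φv, φu y hy] at hxy
        exact absurd hxy.symm (by simpa using hn _ hf y hy [])
      · rw [φv, φu x hx] at hxy
        exact absurd hxy (by simpa using hn _ hf x hx [])
      · rw [φu x hx, φu y hy] at hxy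
        exact hinj x hx y hy hxy
    · intro x hx y hy hxy
      rw [Finset.mem_insert] at hx hy
      rcases hx with rfl | hx <;> rcases hy with rfl | hy
      · exact absurd rfl hxy
      · rw [φv, φu y hy, G.adj_comm, adjv y hy]
        exact ⟨AA_symm, AA_symm⟩
      · rw [φv, φu x hx, adjv x hx]
      · rw [φu x hx, φu y hy]
        exact hA x hx y hy hxy
    · intro g hg
      rw [memF] at hg
      rcases hg with ⟨e, rfl⟩ | ⟨hg, _⟩
      · rw [wn e]
        fin_cases e
        · refine ⟨?_, ?_, ?_⟩
          · simp [nf, corner, φv]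
          · simp [nf, corner, φu b mb, cb]
          · simp [nf, corner, φu c mc, cc]
        · refine ⟨?_, ?_, ?_⟩
          · simp [nf, corner, φu a ma, ca]
          · simp [nf, corner, φv]
          · simp [nf, corner, φu c mc, cc]
        · refine ⟨?_, ?_, ?_⟩
          · simp [nf, corner, φu a ma, ca]
          · simp [nf, corner, φu b mb, cb]
          · simp [nf, corner, φv]
      · obtain ⟨g1, g2, g3⟩ := hm g hg
        rw [wo g hg, φu _ g1, φu _ g2, φu _ g3]
        exact hc g hg
    · intro g hg u hu δ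
      rw [memF] at hg
      rw [Finset.mem_insert] at hu
      rcases hg with ⟨e, rfl⟩ | ⟨hg, hne⟩
      · rw [wn e]
        rcases hu with rfl | hu
        · rw [φv]
          intro h
          have h' : w = δ ++ e :: w := by simpa using h
          have := congrArg List.length h'
          simp at this
          omega
        · rw [φu u hu]
          have := hn _ hf u hu (δ ++ [e])
          simpa using this
      · rw [wo g hg]
        rcases hu with rfl | hu
        · rw [φv]
          intro h
          have h' : w = δ ++ wd g := by simpa using h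
          exact hs g hg _ hf hne δ h'
        · rw [φu u hu]
          exact hn g hg u hu δ
    · intro f hf' g hg hfg δ
      rw [memF] at hf' hg
      rcases hf' with ⟨e, rfl⟩ | ⟨hf', hfne⟩ <;> rcases hg with ⟨e', rfl⟩ | ⟨hg, hgne⟩
      · rw [wn, wn]
        intro h
        have hl := congrArg List.length h
        simp at hl
        subst hl
        simp at h
        exact hfg (by rw [h])
      · rw [wn, wo g hg]
        intro h
        exact hs _ hf g hg hgne.symm (δ ++ [e]) (by simpa using h)
      · rw [wn, wo f hf']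
        intro h
        cases δ with
        | nil =>
          have h' : wd f = [e'] ++ w := by simpa using h.symm
          exact hs _ hf f hf' hfne.symm [e'] h'
        | cons x δ =>
          simp only [List.cons_append, List.cons.injEq] at h
          exact hs f hf' _ hf hfne δ h.2
      · rw [wo f hf', wo g hg]
        exact hs f hf' g hg hfg δ
    · intro g hg
      rw [memF] at hg
      rcases hg with ⟨e, rfl⟩ | ⟨hg, _⟩
      · fin_cases e
        · exact ⟨Finset.mem_insert_self _ _, Finset.mem_insert_of_mem mb,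
            Finset.mem_insert_of_mem mc⟩
        · exact ⟨Finset.mem_insert_of_mem ma, Finset.mem_insert_self _ _,
            Finset.mem_insert_of_mem mc⟩
        · exact ⟨Finset.mem_insert_of_mem ma, Finset.mem_insert_of_mem mb,
            Finset.mem_insert_self _ _⟩
      · obtain ⟨g1, g2, g3⟩ := hm g hg
        exact ⟨Finset.mem_insert_of_mem g1, Finset.mem_insert_of_mem g2,
          Finset.mem_insert_of_mem g3⟩

theorem embed {V : Type*} [DecidableEq V] (G : SimpleGraph V) (S : Finset V)
    (F : Finset (V × V × V)) (h : Network G S F) :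
    ∃ φ : V → VV, (∀ u ∈ S, ∀ v ∈ S, φ u = φ v → u = v) ∧
      ∀ u ∈ S, ∀ v ∈ S, u ≠ v → (G.Adj u v ↔ AA (φ u) (φ v)) := by
  obtain ⟨φ, _, h1, h2, _⟩ := embed_aux G S F h
  exact ⟨φ, h1, h2⟩

end Pool.Agent.Helper59.AP
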