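import Pool.Agent.Helper59.AP.Alg

namespace Pool.Agent.Helper59.AP

theorem bw_le {X : Pt ℤ} (h : Neg X) : bw X ≤ X.a + X.b + X.c - 2 := by
  obtain ⟨ha, hb, hc, hr, hs, ht⟩ := h
  have h1 : 0 ≤ X.a * X.b := mul_nonneg_of_nonpos_of_nonpos ha hb
  have h2 : X.a * X.b * X.c ≤ 0 := mul_nonpos_of_nonneg_of_nonpos h1 hc
  have h3 : 1 ≤ X.r * X.s := one_le_mul_of_one_le_of_one_le hr hs
  have h4 : 1 ≤ X.r * X.s * X.t := one_le_mul_of_one_le_of_one_le h3 ht
  unfold bw
  linarith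

theorem root_ge {x y z w : ℤ} (hx : 1 ≤ x) (hy : 1 ≤ y) (hz : z ≤ 0) (hw : 1 ≤ w) :
    1 ≤ x * y - z * w := by
  have h1 : 1 ≤ x * y := one_le_mul_of_one_le_of_one_le hx hy
  have h2 : z * w ≤ 0 := mul_nonpos_of_nonpos_of_nonneg hz (by linarith)
  linarith

theorem root_le {x y z w : ℤ} (hx : 1 ≤ x) (hy : y ≤ 0) (hz : 1 ≤ z) (hw : 1 ≤ w) :
    x * y - z * w ≤ -1 := by
  have h1 : 1 ≤ z * w := one_le_mul_of_one_le_of_one_le hz hw
  have h2 : x * y ≤ 0 := mul_nonpos_of_nonneg_of_nonpos (by linarith) hy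
  linarith

theorem neg_back {X : Pt ℤ} (h : Neg X) (e : Fin 3) : Neg (back e X) := by
  have hb' := bw_le h
  obtain ⟨ha, hb, hc, hr, hs, ht⟩ := h
  fin_cases e
  · exact ⟨by change bw X ≤ 0; linarith, hb, hc, root_ge hr ht hb hs, root_ge hs ht hc hr, ht⟩
  · exact ⟨ha, by change bw X ≤ 0; linarith, hc, root_ge hr hs ha ht, hs, root_ge hs ht hc hr⟩
  · exact ⟨ha, hb, by change bw X ≤ 0; linarith, hr, root_ge hr hs ha ht, root_ge hr ht hb hs⟩

def Off (Z : Pt ℤ) : Prop :=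
  Z.a ≤ 0 ∧ Z.b ≤ 0 ∧ Z.c ≤ 0 ∧ Z.r * Z.s * Z.t ≤ -1 ∧ Z.a + Z.b + Z.c ≤ -1

theorem off_fw {Z : Pt ℤ} (h : Off Z) : fw Z ≤ -3 := by
  obtain ⟨ha, hb, hc, hp, hs⟩ := h
  have h1 : 0 ≤ Z.a * Z.b := mul_nonneg_of_nonpos_of_nonpos ha hb
  have h2 : Z.a * Z.b * Z.c ≤ 0 := mul_nonpos_of_nonneg_of_nonpos h1 hc
  unfold fw
  linarith

theorem off_prod {u q p x y z : ℤ} (hp : p ≤ -1) (hq : 0 ≤ q) (hx : x ≤ 0) (hz : z ≤ 0)
    (y' : ℤ) : p * (2 * q + 1) + u ^ 2 * (x * y ^ 2 + z * y' ^ 2) ≤ -1 := by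
  have h1 : q * p ≤ 0 := mul_nonpos_of_nonneg_of_nonpos hq (by linarith)
  have h2 : x * y ^ 2 ≤ 0 := mul_nonpos_of_nonpos_of_nonneg hx (sq_nonneg _)
  have h3 : z * y' ^ 2 ≤ 0 := mul_nonpos_of_nonpos_of_nonneg hz (sq_nonneg _)
  have h4 : u ^ 2 * (x * y ^ 2 + z * y' ^ 2) ≤ 0 :=
    mul_nonpos_of_nonneg_of_nonpos (sq_nonneg _) (by linarith)
  nlinarith

theorem off_step {Z : Pt ℤ} (hg : Good Z) (h : Off Z) (e : Fin 3) : Off (step e Z) := by
  have hw := off_fw h
  obtain ⟨ha, hb, hc, hp, hs⟩ := h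
  obtain ⟨g1, g2, g3⟩ := hg
  have hab : 0 ≤ Z.a * Z.b := mul_nonneg_of_nonpos_of_nonpos ha hb
  have hac : 0 ≤ Z.a * Z.c := mul_nonneg_of_nonpos_of_nonpos ha hc
  have hbc : 0 ≤ Z.b * Z.c := mul_nonneg_of_nonpos_of_nonpos hb hc
  fin_cases e
  · refine ⟨by change fw Z ≤ 0; linarith, hb, hc, ?_, by change fw Z + Z.b + Z.c ≤ -1; linarith⟩
    change (Z.r * Z.t + Z.b * Z.s) * (Z.s * Z.t + Z.c * Z.r) * Z.t ≤ -1
    have e1 : (Z.r * Z.t + Z.b * Z.s) * (Z.s * Z.t + Z.c * Z.r) * Z.t =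
        (Z.r * Z.s * Z.t) * (2 * (Z.b * Z.c) + 1) + Z.t ^ 2 * (Z.c * Z.r ^ 2 + Z.b * Z.s ^ 2) := by
      linear_combination (Z.r * Z.s * Z.t) * g3
    rw [e1]
    exact off_prod hp hbc hc hb _
  · refine ⟨ha, by change fw Z ≤ 0; linarith, hc, ?_, by change Z.a + fw Z + Z.c ≤ -1; linarith⟩
    change (Z.r * Z.s + Z.a * Z.t) * Z.s * (Z.s * Z.t + Z.c * Z.r) ≤ -1
    have e1 : (Z.r * Z.s + Z.a * Z.t) * Z.s * (Z.s * Z.t + Z.c * Z.r) =
        (Z.r * Z.s * Z.t) * (2 * (Z.a * Z.c) + 1) + Z.s ^ 2 * (Z.c * Z.r ^ 2 + Z.a * Z.t ^ 2) := by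
      linear_combination (Z.r * Z.s * Z.t) * g2
    rw [e1]
    exact off_prod hp hac hc ha _
  · refine ⟨ha, hb, by change fw Z ≤ 0; linarith, ?_, by change Z.a + Z.b + fw Z ≤ -1; linarith⟩
    change Z.r * (Z.r * Z.s + Z.a * Z.t) * (Z.r * Z.t + Z.b * Z.s) ≤ -1
    have e1 : Z.r * (Z.r * Z.s + Z.a * Z.t) * (Z.r * Z.t + Z.b * Z.s) =
        (Z.r * Z.s * Z.t) * (2 * (Z.a * Z.b) + 1) + Z.r ^ 2 * (Z.b * Z.s ^ 2 + Z.a * Z.t ^ 2) := by
      linear_combination (Z.r * Z.s * Z.t) * g1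
    rw [e1]
    exact off_prod hp hab hb ha _

theorem off_TT (δ : List (Fin 3)) {Z : Pt ℤ} (hg : Good Z) (h : Off Z) : Off (TT Z δ) := by
  induction δ with
  | nil => exact h
  | cons e δ ih => exact off_step (good_TT hg δ) ih e

theorem prod_le {x y z : ℤ} (hx : 1 ≤ x) (hy : 1 ≤ y) (hz : z ≤ -1) : x * y * z ≤ -1 := by
  have h1 : 1 ≤ x * y := one_le_mul_of_one_le_of_one_le hx hy
  nlinarith

theorem fw_back {X : Pt ℤ} (hg : Good X) (e : Fin 3) : fw (back e X) = cor X e := by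
  have h : cor (step e (back e X)) e = cor X e := by rw [step_back hg e]
  rw [← h]
  fin_cases e <;> rfl

theorem off_first {X : Pt ℤ} (hg : Good X) (hn : Neg X) {e e' : Fin 3} (he : e' ≠ e)
    (hs : X.a + X.b + X.c ≤ -1) : Off (step e' (back e X)) := by
  have hb' := bw_le hn
  have hn' := neg_back hn e
  have hf := fw_back hg e
  obtain ⟨ha, hb, hc, hr, hs', ht⟩ := hn
  obtain ⟨g1, g2, g3⟩ := hg
  fin_cases e
  · have hf' : fw (back 0 X) = X.a := hf
    have hr' : 1 ≤ X.r * X.t - X.b * X.s := hn'.2.2.2.1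
    have hs'' : 1 ≤ X.s * X.t - X.c * X.r := hn'.2.2.2.2.1
    have key : (X.r * X.t - X.b * X.s) * (X.s * X.t - X.c * X.r) + bw X * X.t =
        X.t * X.a - X.r * X.s := by
      unfold bw; linear_combination (X.r * X.s) * g3 - X.t * X.b * g2 - X.t * X.c * g1 -
        2 * X.r * X.s * g3
    have hk : X.t * X.a - X.r * X.s ≤ -1 := root_le ht ha hr hs'
    fin_cases e'
    · exact absurd rfl he
    · -- e' = 1
      have k2 : (X.s * X.t - X.c * X.r) * X.t + X.c * (X.r * X.t - X.b * X.s) = X.s := by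
        linear_combination X.s * g3
      refine ⟨by change bw X ≤ 0; linarith, by change fw (back 0 X) ≤ 0; linarith, hc, ?_, ?_⟩
      · change ((X.r * X.t - X.b * X.s) * (X.s * X.t - X.c * X.r) + bw X * X.t) *
          (X.s * X.t - X.c * X.r) *
          ((X.s * X.t - X.c * X.r) * X.t + X.c * (X.r * X.t - X.b * X.s)) ≤ -1
        rw [key, k2]
        have := prod_le hs'' hs' hk
        linarith
      · change bw X + fw (back 0 X) + X.c ≤ -1; linarith
    · -- e' = 2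
      have k2 : (X.r * X.t - X.b * X.s) * X.t + X.b * (X.s * X.t - X.c * X.r) = X.r := by
        linear_combination X.r * g3
      refine ⟨by change bw X ≤ 0; linarith, hb, by change fw (back 0 X) ≤ 0; linarith, ?_, ?_⟩
      · change (X.r * X.t - X.b * X.s) *
          ((X.r * X.t - X.b * X.s) * (X.s * X.t - X.c * X.r) + bw X * X.t) *
          ((X.r * X.t - X.b * X.s) * X.t + X.b * (X.s * X.t - X.c * X.r)) ≤ -1
        rw [key, k2]
        have := prod_le hr' hr hk
        linarith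
      · change bw X + X.b + fw (back 0 X) ≤ -1; linarith
  · have hf' : fw (back 1 X) = X.b := hf
    have hr' : 1 ≤ X.r * X.s - X.a * X.t := hn'.2.2.2.1
    have ht' : 1 ≤ X.s * X.t - X.c * X.r := hn'.2.2.2.2.2
    have key : (X.r * X.s - X.a * X.t) * (X.s * X.t - X.c * X.r) + bw X * X.s =
        X.s * X.b - X.r * X.t := by
      unfold bw; linear_combination (X.r * X.t) * g2 - X.s * X.c * g1 - X.s * X.a * g3 -
        2 * X.r * X.t * g2
    have hk : X.s * X.b - X.r * X.t ≤ -1 := root_le hs' hb hr ht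
    fin_cases e'
    · -- e' = 0
      have k2 : X.s * (X.s * X.t - X.c * X.r) + X.c * (X.r * X.s - X.a * X.t) = X.t := by
        linear_combination X.t * g2
      refine ⟨by change fw (back 1 X) ≤ 0; linarith, by change bw X ≤ 0; linarith, hc, ?_, ?_⟩
      · change ((X.r * X.s - X.a * X.t) * (X.s * X.t - X.c * X.r) + bw X * X.s) *
          (X.s * (X.s * X.t - X.c * X.r) + X.c * (X.r * X.s - X.a * X.t)) *
          (X.s * X.t - X.c * X.r) ≤ -1
        rw [key, k2]
        have := prod_le ht ht' hk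
        linarith
      · change fw (back 1 X) + bw X + X.c ≤ -1; linarith
    · exact absurd rfl he
    · -- e' = 2
      have k2 : (X.r * X.s - X.a * X.t) * X.s + X.a * (X.s * X.t - X.c * X.r) = X.r := by
        linear_combination X.r * g2
      refine ⟨ha, by change bw X ≤ 0; linarith, by change fw (back 1 X) ≤ 0; linarith, ?_, ?_⟩
      · change (X.r * X.s - X.a * X.t) *
          ((X.r * X.s - X.a * X.t) * X.s + X.a * (X.s * X.t - X.c * X.r)) *
          ((X.r * X.s - X.a * X.t) * (X.s * X.t - X.c * X.r) + bw X * X.s) ≤ -1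
        rw [key, k2]
        exact prod_le hr' hr hk
      · change X.a + bw X + fw (back 1 X) ≤ -1; linarith
  · have hf' : fw (back 2 X) = X.c := hf
    have hs'' : 1 ≤ X.r * X.s - X.a * X.t := hn'.2.2.2.2.1
    have ht' : 1 ≤ X.r * X.t - X.b * X.s := hn'.2.2.2.2.2
    have key : (X.r * X.s - X.a * X.t) * (X.r * X.t - X.b * X.s) + bw X * X.r =
        X.r * X.c - X.s * X.t := by
      unfold bw; linear_combination (X.s * X.t) * g1 - X.r * X.b * g2 - X.r * X.a * g3 -
        2 * X.s * X.t * g1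
    have hk : X.r * X.c - X.s * X.t ≤ -1 := root_le hr hc hs' ht
    fin_cases e'
    · -- e' = 0
      have k2 : X.r * (X.r * X.t - X.b * X.s) + X.b * (X.r * X.s - X.a * X.t) = X.t := by
        linear_combination X.t * g1
      refine ⟨by change fw (back 2 X) ≤ 0; linarith, hb, by change bw X ≤ 0; linarith, ?_, ?_⟩
      · change (X.r * (X.r * X.t - X.b * X.s) + X.b * (X.r * X.s - X.a * X.t)) *
          ((X.r * X.s - X.a * X.t) * (X.r * X.t - X.b * X.s) + bw X * X.r) *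
          (X.r * X.t - X.b * X.s) ≤ -1
        rw [key, k2]
        have := prod_le ht ht' hk
        linarith
      · change fw (back 2 X) + X.b + bw X ≤ -1; linarith
    · -- e' = 1
      have k2 : X.r * (X.r * X.s - X.a * X.t) + X.a * (X.r * X.t - X.b * X.s) = X.s := by
        linear_combination X.s * g1
      refine ⟨ha, by change fw (back 2 X) ≤ 0; linarith, by change bw X ≤ 0; linarith, ?_, ?_⟩
      · change (X.r * (X.r * X.s - X.a * X.t) + X.a * (X.r * X.t - X.b * X.s)) *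
          (X.r * X.s - X.a * X.t) *
          ((X.r * X.s - X.a * X.t) * (X.r * X.t - X.b * X.s) + bw X * X.r) ≤ -1
        rw [key, k2]
        exact prod_le hs' hs'' hk
      · change X.a + fw (back 2 X) + bw X ≤ -1; linarith
    · exact absurd rfl he

theorem neg_gen (α : List (Fin 3)) : ∀ X : Pt ℤ, Good X → Neg X → X.a + X.b + X.c ≤ -1 →
    ∀ v : VV, (∃ i, v = corner α i) ∨ (∃ δ, v = Sum.inr (δ ++ α)) ∨ lab (BB α X) v ≤ -3 := by
  induction α with
  | nil =>
    intro X hg hn hs v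
    rcases v with i | β
    · exact Or.inl ⟨i, rfl⟩
    · exact Or.inr (Or.inl ⟨β, by simp⟩)
  | cons e α ih =>
    intro X hg hn hs v
    have hb := bw_le hn
    have hg' := good_back hg e
    have hn' := neg_back hn e
    have hs' : (back e X).a + (back e X).b + (back e X).c ≤ -1 := by
      obtain ⟨ha, hb, hc, -, -, -⟩ := hn
      fin_cases e
      · change bw X + X.b + X.c ≤ -1; linarith
      · change X.a + bw X + X.c ≤ -1; linarith
      · change X.a + X.b + bw X ≤ -1; linarith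
    rcases ih (back e X) hg' hn' hs' v with ⟨i, rfl⟩ | ⟨δ, rfl⟩ | h
    · by_cases hi : i = e
      · right; right
        subst hi
        change lab (BB α (back i X)) (corner α i) ≤ -3
        rw [← cor_TT, TT_BB hg']
        have hc : cor (back i X) i = bw X := by fin_cases i <;> rfl
        rw [hc]; linarith
      · left; exact ⟨i, by simp [corner, hi]⟩
    · rcases List.eq_nil_or_concat δ with rfl | ⟨δ', e', rfl⟩
      · left; exact ⟨e, by simp [corner]⟩
      · by_cases he : e' = e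
        · right; left; exact ⟨δ', by simp [he]⟩
        · right; right
          change fw (TT (BB α (back e X)) (δ'.concat e' ++ α)) ≤ -3
          rw [TT_append, TT_BB hg', List.concat_eq_append, TT_append]
          exact off_fw (off_TT δ' (good_step hg' e') (off_first hg hn he hs))
    · right; right; exact h

theorem good_Om : Good Om := by refine ⟨?_, ?_, ?_⟩ <;> norm_num [Om]

theorem neg_Om : Neg Om := by refine ⟨?_, ?_, ?_, ?_, ?_, ?_⟩ <;> norm_num [Om]

theorem neg_main (α : List (Fin 3)) (v : VV) :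
    (∃ i, v = corner α i) ∨ (∃ δ, v = Sum.inr (δ ++ α)) ∨ lab (BB α Om) v ≤ -3 :=
  neg_gen α Om good_Om neg_Om (by norm_num [Om]) v

theorem lab_self (α : List (Fin 3)) : lab (BB α Om) (Sum.inr α) = 1 := by
  change fw (TT (BB α Om) α) = 1
  rw [TT_BB good_Om]
  norm_num [fw, Om]

end Pool.Agent.Helper59.AP
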