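import Pool.Agent.Helper59.AP.Defs

/-!
MP_85da37: a sequence of good primes (Dirichlet and quadratic reciprocity).
-/

set_option autoImplicit false

namespace Pool.Agent.Helper59.AP

namespace Pri

theorem nxt_ex (x : ℕ) : ∃ l : ℕ, x < l ∧ l.Prime ∧ 4 * x.factorial ∣ l + 1 := by
  have hne : NeZero (4 * x.factorial) := ⟨mul_ne_zero (by norm_num) x.factorial_ne_zero⟩
  obtain ⟨l, hl, hp, he⟩ := Nat.forall_exists_prime_gt_and_eq_mod
    (q := 4 * x.factorial) (a := -1) isUnit_one.neg x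
  refine ⟨l, hl, hp, ?_⟩
  rw [← ZMod.natCast_eq_zero_iff, Nat.cast_add, he, Nat.cast_one]
  ring

noncomputable def nxt (x : ℕ) : ℕ := (nxt_ex x).choose

theorem lt_nxt (x : ℕ) : x < nxt x := (nxt_ex x).choose_spec.1

theorem nxt_prime (x : ℕ) : (nxt x).Prime := (nxt_ex x).choose_spec.2.1

theorem nxt_dvd (x : ℕ) : 4 * x.factorial ∣ nxt x + 1 := (nxt_ex x).choose_spec.2.2

theorem sq_prime {x l q : ℕ} (hl : l.Prime) (hx : x < l) (hd : 4 * x.factorial ∣ l + 1)
    (hq : q.Prime) (hqx : q ≤ x) : IsSquare (q : ZMod l) := by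
  have := Fact.mk hl
  have := Fact.mk hq
  have h4 : l % 4 = 3 := by
    have : 4 ∣ l + 1 := dvd_trans (dvd_mul_right _ _) hd
    omega
  have hqd : q ∣ x.factorial := Nat.dvd_factorial hq.pos hqx
  have hq4 : 4 * q ∣ l + 1 := dvd_trans (Nat.mul_dvd_mul_left 4 hqd) hd
  rcases hq.eq_two_or_odd with h2 | hodd
  · subst h2
    have h8 : l % 8 = 7 := by omega
    have := (ZMod.exists_sq_eq_two_iff (p := l) (by omega)).2 (Or.inr h8)
    exact_mod_cast this
  · have hm : (l : ZMod q) = -1 := by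
      have : ((l + 1 : ℕ) : ZMod q) = 0 := by
        rw [ZMod.natCast_eq_zero_iff]; exact dvd_trans (dvd_mul_left _ _) hq4
      rw [Nat.cast_add, Nat.cast_one] at this
      exact eq_neg_of_add_eq_zero_left this
    have hne : l ≠ q := by omega
    have hc : q % 4 = 1 ∨ q % 4 = 3 := by omega
    rcases hc with h1 | h3
    · rw [← ZMod.exists_sq_eq_prime_iff_of_mod_four_eq_one (p := q) (q := l) h1 (by omega), hm]
      rw [ZMod.exists_sq_eq_neg_one_iff]; omega
    · rw [ZMod.exists_sq_eq_prime_iff_of_mod_four_eq_three (p := l) (q := q) h4 h3 hne, hm]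
      rw [ZMod.exists_sq_eq_neg_one_iff]; omega

theorem sq_all {x l : ℕ} (hl : l.Prime) (hx : x < l) (hd : 4 * x.factorial ∣ l + 1) :
    ∀ m : ℕ, 1 ≤ m → m ≤ x → IsSquare (m : ZMod l) := by
  intro m
  induction m using Nat.strong_induction_on with
  | _ m ih =>
    intro h1 hmx
    rcases Nat.eq_or_lt_of_le h1 with h | h
    · rw [← h, Nat.cast_one]; exact IsSquare.one
    · have hp := Nat.minFac_prime (n := m) (by omega)
      obtain ⟨k, hk⟩ := Nat.minFac_dvd m
      have hk1 : 1 ≤ k := by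
        rcases Nat.eq_zero_or_pos k with h0 | h0
        · rw [h0] at hk; omega
        · exact h0
      have hkm : k < m := by
        have := hp.two_le
        nlinarith
      have hle : m.minFac ≤ m := Nat.minFac_le (by omega)
      rw [hk, Nat.cast_mul]
      exact (sq_prime hl hx hd hp (le_trans hle hmx)).mul (ih k hkm hk1 (by omega))

theorem gp_of {B x l : ℕ} (hBx : B + 2 ≤ x) (hl : l.Prime) (hx : x < l)
    (hd : 4 * x.factorial ∣ l + 1) : GP B l := by
  have := Fact.mk hl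
  refine ⟨hl, by omega, by omega, ?_⟩
  intro m h1 hm
  have hs := sq_all hl hx hd m h1 (by omega)
  refine ⟨hs, ?_⟩
  intro hn
  have h4 : l % 4 = 3 := by
    have : 4 ∣ l + 1 := dvd_trans (dvd_mul_right _ _) hd
    omega
  have hm0 : (m : ZMod l) ≠ 0 := by
    rw [Ne, ZMod.natCast_eq_zero_iff]
    intro h
    have := Nat.le_of_dvd (by omega) h
    omega
  have hd1 : IsSquare (-(m : ZMod l) / m) := hn.div hs
  rw [neg_div, div_self hm0, ZMod.exists_sq_eq_neg_one_iff] at hd1
  exact hd1 h4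

theorem cop {x l k : ℕ} (hlx : l ≤ x) (hl2 : 2 < l) (hl : l.Prime)
    (hd : 4 * x.factorial ∣ k + 1) : (NN l).Coprime (NN k) := by
  rw [Nat.coprime_iff_gcd_eq_one]
  by_contra hne
  obtain ⟨q, hq, hqd⟩ := Nat.exists_prime_and_dvd hne
  have h1 : q ∣ NN l := dvd_trans hqd (Nat.gcd_dvd_left _ _)
  have h2 : q ∣ NN k := dvd_trans hqd (Nat.gcd_dvd_right _ _)
  have hql : q ≤ l := by
    unfold NN at h1
    rcases (Nat.Prime.dvd_mul hq).1 h1 with h | h
    · exact Nat.le_of_dvd hl.pos h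
    · have := Nat.le_of_dvd (by omega) h
      omega
  have hqx : q ∣ x.factorial := Nat.dvd_factorial hq.pos (le_trans hql hlx)
  obtain ⟨c, hc⟩ := dvd_trans (Nat.mul_dvd_mul_left 4 hqx) hd
  unfold NN at h2
  have hq2 := hq.two_le
  rcases (Nat.Prime.dvd_mul hq).1 h2 with h | h
  · have h3 : q ∣ k + 1 := ⟨4 * c, by rw [hc]; ring⟩
    have := (Nat.dvd_add_right h).1 h3
    have := Nat.le_of_dvd one_pos this
    omega
  · have hk1 : (k - 1) / 2 + 1 = 2 * q * c := by
      have : 4 * q * c = 2 * (2 * q * c) := by ring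
      omega
    have h3 : q ∣ (k - 1) / 2 + 1 := ⟨2 * c, by rw [hk1]; ring⟩
    have := (Nat.dvd_add_right h).1 h3
    have := Nat.le_of_dvd one_pos this
    omega

/-- the sequence of primes -/
noncomputable def sq (B : ℕ) : ℕ → ℕ
  | 0 => nxt (B + 2)
  | i + 1 => nxt (sq B i)

theorem sq_mono (B : ℕ) : StrictMono (sq B) := strictMono_nat_of_lt_succ fun _ => lt_nxt _

end Pri

theorem primes (B : ℕ) : ∃ p : ℕ → ℕ, (∀ i, GP B (p i)) ∧
    ∀ i j, i ≠ j → (NN (p i)).Coprime (NN (p j)) := by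
  have hpr : ∀ i, (Pri.sq B i).Prime := by
    intro i; cases i <;> exact Pri.nxt_prime _
  have hge : ∀ i, B + 2 ≤ Pri.sq B i := by
    intro i
    have h0 : B + 2 < Pri.sq B 0 := Pri.lt_nxt _
    have := (Pri.sq_mono B).monotone (Nat.zero_le i)
    omega
  have key : ∀ i j, i < j → (NN (Pri.sq B i)).Coprime (NN (Pri.sq B j)) := by
    intro i j hij
    obtain ⟨j, rfl⟩ : ∃ k, j = k + 1 := ⟨j - 1, by omega⟩
    have h1 := (Pri.sq_mono B).monotone (show i ≤ j by omega)
    have h2 := hge i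
    have h3 : Pri.sq B i ≠ 2 := by
      have h0 : B + 2 < Pri.sq B 0 := Pri.lt_nxt _
      have := (Pri.sq_mono B).monotone (Nat.zero_le i)
      omega
    exact Pri.cop h1 (by omega) (hpr i) (Pri.nxt_dvd _)
  refine ⟨Pri.sq B, ?_, ?_⟩
  · intro i
    cases i with
    | zero => exact Pri.gp_of (le_refl _) (Pri.nxt_prime _) (Pri.lt_nxt _) (Pri.nxt_dvd _)
    | succ i => exact Pri.gp_of (hge i) (Pri.nxt_prime _) (Pri.lt_nxt _) (Pri.nxt_dvd _)
  · intro i j hij
    rcases lt_or_gt_of_ne hij with h | h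
    · exact key i j h
    · exact (key j i h).symm

end Pool.Agent.Helper59.AP
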