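import Pool.Agent.Helper59.AP.Alg
import Pool.Agent.Helper59.AP.Neg
import Pool.Agent.Helper59.AP.Pri
import Pool.Agent.Helper59.AP.Blk
import Pool.Agent.Helper59.AP.Gra

namespace Pool.Agent.Helper59.AP

theorem fin_fw_pos {P : Pt ℤ} (h : Pos P) : 1 ≤ fw P := by
  obtain ⟨ha, hb, hc, hr, hs, ht⟩ := h
  have h1 : 0 ≤ P.a * P.b := mul_nonneg (by linarith) (by linarith)
  have h2 : 0 ≤ P.a * P.b * P.c := mul_nonneg h1 (by linarith)
  have h3 : 0 ≤ P.r * P.s := mul_nonneg (by linarith) (by linarith)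
  have h4 : 0 ≤ P.r * P.s * P.t := mul_nonneg h3 (by linarith)
  have h5 : fw P = P.a + P.b + P.c + 2 * (P.a * P.b * P.c) + 2 * (P.r * P.s * P.t) := by
    unfold fw; ring
  rw [h5]
  linarith

theorem fin_mul_add_one_le {x y z w : ℤ} (hx : 1 ≤ x) (hy : 1 ≤ y) (hz : 1 ≤ z) (hw : 1 ≤ w) :
    1 ≤ x * y + z * w := by
  have h1 : 1 ≤ x * y := by nlinarith
  have h2 : 1 ≤ z * w := by nlinarith
  linarith

theorem fin_pos_step {P : Pt ℤ} (h : Pos P) (e : Fin 3) : Pos (step e P) := by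
  have hw := fin_fw_pos h
  obtain ⟨ha, hb, hc, hr, hs, ht⟩ := h
  fin_cases e
  · exact ⟨hw, hb, hc, fin_mul_add_one_le hr ht hb hs, fin_mul_add_one_le hs ht hc hr, ht⟩
  · exact ⟨ha, hw, hc, fin_mul_add_one_le hr hs ha ht, hs, fin_mul_add_one_le hs ht hc hr⟩
  · exact ⟨ha, hb, hw, hr, fin_mul_add_one_le hr hs ha ht, fin_mul_add_one_le hr ht hb hs⟩

theorem fin_pos_TT {P : Pt ℤ} (h : Pos P) (α : List (Fin 3)) : Pos (TT P α) := by
  induction α with
  | nil => exact h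
  | cons e α ih => exact fin_pos_step ih e

theorem fin_lab_pos {P : Pt ℤ} (h : Pos P) (v : VV) : 0 < lab P v := by
  rcases v with i | α
  · obtain ⟨ha, hb, hc, _⟩ := h
    fin_cases i
    · exact lt_of_lt_of_le one_pos ha
    · exact lt_of_lt_of_le one_pos hb
    · exact lt_of_lt_of_le one_pos hc
  · exact lt_of_lt_of_le one_pos (fin_fw_pos (fin_pos_TT h α))

theorem fin_not_sq_of_succ {x : ℤ} (hx : 0 < x) (h : IsSquare (x + 1)) : ¬ IsSquare x := by
  rintro ⟨r, hr⟩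
  obtain ⟨s, hs⟩ := h
  have h1 : s.natAbs * s.natAbs = r.natAbs * r.natAbs + 1 := by
    zify
    rw [← sq, ← sq, sq_abs, sq_abs, sq, sq]
    linarith
  have h2 : 0 < r.natAbs := by
    rcases Nat.eq_zero_or_pos r.natAbs with h0 | h0
    · rw [Int.natAbs_eq_zero] at h0
      rw [h0] at hr
      omega
    · exact h0
  have h3 : r.natAbs < s.natAbs := by
    by_contra hc
    push Not at hc
    have := Nat.mul_le_mul hc hc
    omega
  have h4 : (r.natAbs + 1) * (r.natAbs + 1) ≤ s.natAbs * s.natAbs := Nat.mul_le_mul h3 h3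
  have h5 : (r.natAbs + 1) * (r.natAbs + 1) = r.natAbs * r.natAbs + 2 * r.natAbs + 1 := by ring
  omega

theorem fin_adj_case {P : Pt ℤ} (hg : Good P) (hp : Pos P) {u v : VV} (huv : AA u v) :
    lab P u ≠ lab P v ∧ ¬ IsSquare (lab P u * lab P v) ∧
      (AA u v ↔ IsSquare (lab P u * lab P v + 1)) := by
  have h1 := sq_AA hg huv
  have h2 : ¬ IsSquare (lab P u * lab P v) :=
    fin_not_sq_of_succ (mul_pos (fin_lab_pos hp u) (fin_lab_pos hp v)) h1
  refine ⟨fun h => h2 ⟨lab P v, by rw [h]⟩, h2, fun _ => h1, fun _ => huv⟩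

theorem fin_non_case {P : Pt ℤ} (hg : Good P) {u v : VV} (h2 : ¬ IsSquare (lab P u * lab P v))
    (h3 : ¬ IsSquare (lab P u * lab P v + 1)) :
    lab P u ≠ lab P v ∧ ¬ IsSquare (lab P u * lab P v) ∧
      (AA u v ↔ IsSquare (lab P u * lab P v + 1)) := by
  refine ⟨fun h => h2 ⟨lab P v, by rw [h]⟩, h2, fun h => sq_AA hg h, fun h => absurd h h3⟩

theorem fin_AA_symm {u v : VV} (h : AA u v) : AA v u := by
  rcases h with ⟨i, j, hij, hu, hv⟩ | h | h
  · exact Or.inl ⟨j, i, hij.symm, hv, hu⟩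
  · exact Or.inr (Or.inr h)
  · exact Or.inr (Or.inl h)

theorem fin_swap_case {P : Pt ℤ} {u v : VV} (h : lab P u ≠ lab P v ∧ ¬ IsSquare (lab P u * lab P v) ∧
      (AA u v ↔ IsSquare (lab P u * lab P v + 1))) :
    lab P v ≠ lab P u ∧ ¬ IsSquare (lab P v * lab P u) ∧
      (AA v u ↔ IsSquare (lab P v * lab P u + 1)) := by
  obtain ⟨h1, h2, h3⟩ := h
  rw [mul_comm] at h2 h3
  exact ⟨h1.symm, h2, fun h => h3.1 (fin_AA_symm h), fun h => fin_AA_symm (h3.2 h)⟩

theorem fin_sq_cast {x : ℤ} (l : ℕ) (h : IsSquare x) : IsSquare ((x : ℤ) : ZMod l) := by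
  obtain ⟨r, hr⟩ := h
  exact ⟨(r : ZMod l), by rw [hr]; push_cast; ring⟩

/-- `v = inr α` and `u` is not behind it. -/
theorem fin_front_case {P : Pt ℤ} (hg : Good P) (hp : Pos P) {α : List (Fin 3)} {u : VV} {l B : ℕ}
    (hl : GP B l) (hB : (lab (BB α Om) u).natAbs ≤ B) (hred : red l P = red l (BB α Om))
    (hu : ∀ δ, u ≠ Sum.inr (δ ++ α)) :
    lab P u ≠ lab P (Sum.inr α) ∧ ¬ IsSquare (lab P u * lab P (Sum.inr α)) ∧
      (AA u (Sum.inr α) ↔ IsSquare (lab P u * lab P (Sum.inr α) + 1)) := by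
  rcases neg_main α u with ⟨i, hi⟩ | ⟨δ, hδ⟩ | hneg
  · exact fin_adj_case hg hp (Or.inr (Or.inr ⟨α, i, rfl, hi⟩))
  · exact absurd hδ (hu δ)
  · have e1 : ((lab P u : ℤ) : ZMod l) = ((lab (BB α Om) u : ℤ) : ZMod l) := by
      rw [red_lab, red_lab, hred]
    have e2 : ((lab P (Sum.inr α) : ℤ) : ZMod l) = 1 := by
      rw [red_lab, hred, ← red_lab, lab_self]
      simp
    obtain ⟨m, hm⟩ : ∃ m : ℕ, lab (BB α Om) u = -((m : ℤ) + 1) := by
      refine ⟨(-(lab (BB α Om) u) - 1).toNat, ?_⟩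
      rw [Int.toNat_of_nonneg (by omega)]
      ring
    have hm1 : m + 1 ≤ B := by omega
    have hm2 : 1 ≤ m := by omega
    refine fin_non_case hg ?_ ?_
    · intro h
      have h' := fin_sq_cast l h
      push_cast at h'
      rw [e1, e2, hm, mul_one] at h'
      apply (hl.2.2.2 (m + 1) (by omega) hm1).2
      have e3 : -(((m + 1 : ℕ)) : ZMod l) = ((-((m : ℤ) + 1) : ℤ) : ZMod l) := by
        push_cast; ring
      rw [e3]
      exact h'
    · intro h
      have h' := fin_sq_cast l h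
      push_cast at h'
      rw [e1, e2, hm, mul_one] at h'
      apply (hl.2.2.2 m hm2 (by omega)).2
      have e3 : -((m : ℕ) : ZMod l) = ((-((m : ℤ) + 1) : ℤ) : ZMod l) + 1 := by
        push_cast; ring
      rw [e3]
      exact h'

theorem fin_not_behind {α β : List (Fin 3)} (hlen : β.length ≤ α.length) (hne : β ≠ α) :
    ∀ δ, (Sum.inr β : VV) ≠ Sum.inr (δ ++ α) := by
  intro δ h
  have h1 : β = δ ++ α := Sum.inr_injective h
  have h2 : δ.length = 0 := by
    have := congrArg List.length h1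
    rw [List.length_append] at this
    omega
  have h3 : δ = [] := List.eq_nil_of_length_eq_zero h2
  rw [h3, List.nil_append] at h1
  exact hne h1

theorem labels (A : Finset VV) : ∃ P : Pt ℤ, Good P ∧ (∀ v ∈ A, 0 < lab P v) ∧
    ∀ u ∈ A, ∀ v ∈ A, u ≠ v → lab P u ≠ lab P v ∧ ¬ IsSquare (lab P u * lab P v) ∧
      (AA u v ↔ IsSquare (lab P u * lab P v + 1)) := by
  classical
  set A' : Finset (List (Fin 3)) :=
    A.biUnion (fun v => Sum.elim (fun _ => (∅ : Finset (List (Fin 3)))) (fun α => {α}) v) with hA'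
  have hmem : ∀ α, Sum.inr α ∈ A → α ∈ A' := by
    intro α h
    rw [hA', Finset.mem_biUnion]
    exact ⟨Sum.inr α, h, by simp⟩
  obtain ⟨B₀, hB₀⟩ := block A'
  set B₁ : ℕ := (A' ×ˢ A).sup (fun q => (lab (BB q.1 Om) q.2).natAbs) with hB₁
  obtain ⟨p, hp1, hp2⟩ := primes (max B₀ B₁)
  have hmono : ∀ {B B' l : ℕ}, B ≤ B' → GP B' l → GP B l := by
    intro B B' l h hl
    exact ⟨hl.1, hl.2.1, lt_of_le_of_lt h hl.2.2.1, fun m h1 h2 => hl.2.2.2 m h1 (h2.trans h)⟩
  obtain ⟨P, hg, hpos, hred⟩ := hB₀ (fun α => p (Encodable.encode α))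
    (fun α => hmono (le_max_left _ _) (hp1 _))
    (fun α β h => hp2 _ _ (fun h' => h (Encodable.encode_injective h')))
  have hfront : ∀ u ∈ A, ∀ α, Sum.inr α ∈ A → (∀ δ, u ≠ Sum.inr (δ ++ α)) →
      lab P u ≠ lab P (Sum.inr α) ∧ ¬ IsSquare (lab P u * lab P (Sum.inr α)) ∧
      (AA u (Sum.inr α) ↔ IsSquare (lab P u * lab P (Sum.inr α) + 1)) := by
    intro u hu α hα hδ
    refine fin_front_case (l := p (Encodable.encode α)) (B := max B₀ B₁) hg hpos (hp1 _) ?_
      (hred α (hmem α hα)) hδ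
    refine le_trans ?_ (le_max_right _ _)
    exact Finset.le_sup (f := fun q : List (Fin 3) × VV => (lab (BB q.1 Om) q.2).natAbs)
      (Finset.mem_product.2 ⟨hmem α hα, hu⟩ : (α, u) ∈ A' ×ˢ A)
  refine ⟨P, hg, fun v _ => fin_lab_pos hpos v, ?_⟩
  intro u hu v hv huv
  rcases u with i | β
  · rcases v with j | α
    · exact fin_adj_case hg hpos (Or.inl ⟨i, j, fun h => huv (by rw [h]), rfl, rfl⟩)
    · exact hfront _ hu α hv (fun δ h => by cases h)
  · rcases v with j | α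
    · exact fin_swap_case (hfront _ hv β hu (fun δ h => by cases h))
    · have hne : β ≠ α := fun h => huv (by rw [h])
      rcases le_total β.length α.length with hl | hl
      · exact hfront _ hu α hv (fin_not_behind hl hne)
      · exact fin_swap_case (hfront _ hv β hu (fin_not_behind hl hne.symm))

theorem result {V W : Type*} [Fintype V] [DecidableEq V] (G : SimpleGraph V)
    (F : Finset (V × V × V)) (h : Network G Finset.univ F) (H : SimpleGraph W) (φ : H ↪g G) :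
    Helper56.Dio.IsDiophantine H := by
  classical
  obtain ⟨ψ, hinj, hadj⟩ := embed G Finset.univ F h
  obtain ⟨P, _, hpos, hlab⟩ := labels (Finset.univ.image ψ)
  have hm : ∀ w : W, ψ (φ w) ∈ Finset.univ.image ψ :=
    fun w => Finset.mem_image_of_mem _ (Finset.mem_univ _)
  have hcast : ∀ w : W, (((lab P (ψ (φ w))).toNat : ℕ) : ℤ) = lab P (ψ (φ w)) :=
    fun w => Int.toNat_of_nonneg (hpos _ (hm w)).le
  refine ⟨fun w => (lab P (ψ (φ w))).toNat, ?_, ?_, ?_⟩
  · intro w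
    have := hpos _ (hm w)
    simp only
    omega
  · intro w w' hw
    simp only at hw
    by_contra hne
    have h1 : φ w ≠ φ w' := fun h => hne (φ.injective h)
    have h2 : ψ (φ w) ≠ ψ (φ w') :=
      fun h => h1 (hinj _ (Finset.mem_univ _) _ (Finset.mem_univ _) h)
    apply (hlab _ (hm w) _ (hm w') h2).1
    rw [← hcast w, ← hcast w', hw]
  · intro u v huv
    have h1 : φ u ≠ φ v := fun h => huv (φ.injective h)
    have h2 : ψ (φ u) ≠ ψ (φ v) :=
      fun h => h1 (hinj _ (Finset.mem_univ _) _ (Finset.mem_univ _) h)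
    rw [← φ.map_adj_iff, hadj _ (Finset.mem_univ _) _ (Finset.mem_univ _) h1,
      (hlab _ (hm u) _ (hm v) h2).2.2, ← Int.isSquare_natCast_iff]
    push_cast
    rw [hcast u, hcast v]

end Pool.Agent.Helper59.AP
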